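import Mathlib
import Pool.Agent.Lib.MP_f02ea4_nt.Mg.G018

/-! The average exponent of an odd perfect number. -/

set_option autoImplicit false

namespace Pool.Agent.Lib.MP_f02ea4_nt.AE

open Finset Real
open Pool.Agent.Lib.MP_f02ea4_nt.Sm

lemma d12_logsum (n : ℕ) (V : Finset ℕ) :
    ∑ r ∈ V, (n.factorization r : ℝ) * log r ≤ log n := by
  classical
  rw [Real.log_nat_eq_sum_factorization, Finsupp.sum, Nat.support_factorization]
  have h1 : ∑ r ∈ V, (n.factorization r : ℝ) * log r =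
      ∑ r ∈ V.filter (· ∈ n.primeFactors), (n.factorization r : ℝ) * log r := by
    refine (Finset.sum_filter_of_ne fun r _ hr => ?_).symm
    rw [← Nat.support_factorization, Finsupp.mem_support_iff]
    intro h0
    apply hr
    rw [h0]
    simp
  rw [h1]
  refine Finset.sum_le_sum_of_subset_of_nonneg ?_ ?_
  · intro r hr
    exact (Finset.mem_filter.1 hr).2
  · intro r _ _
    exact mul_nonneg (Nat.cast_nonneg _) (log_natCast_nonneg r)

lemma d12_card (N P q : ℕ) (hP : ∀ p ∈ N.primeFactors, p ≤ P)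
    (hq : q ∈ N.primeFactors) :
    ((N.primeFactors.filter (fun r => bb N q r ≠ 0)).card : ℝ) ≤
      ((nn N q).divisors.card : ℝ) * √(P * log P) := by
  classical
  have hqp : q.Prime := Nat.prime_of_mem_primeFactors hq
  refine le_trans ?_ (count_order P q (nn N q) hqp.two_le (hP q hq) (by unfold nn; omega))
  refine Nat.cast_le.2 (Finset.card_le_card ?_)
  intro r hr
  obtain ⟨hr1, hr2⟩ := Finset.mem_filter.1 hr
  have hb : r ∣ Sq N q ∧ ¬ r ∣ q - 1 := by
    by_contra hcon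
    apply hr2
    unfold bb
    rw [if_neg hcon]
  refine Finset.mem_filter.2 ⟨Finset.mem_range.2 (by have := hP r hr1; omega),
    Nat.prime_of_mem_primeFactors hr1, hb.2, ?_⟩
  have h1 : q ^ nn N q - 1 = (q - 1) * Sq N q := by
    have := Sb.sg_pow hqp (N.factorization q)
    unfold nn Sq
    omega
  rw [h1]
  exact Dvd.dvd.mul_left hb.1 _

lemma d12_real {η K T I x L : ℝ} (hη : 0 < η) (hK : 1 ≤ K) (hT : 0 ≤ T) (hI : 0 ≤ I)
    (hx : 1 ≤ x) (hL0 : 0 ≤ L) (hL : L ≤ K * x ^ η) :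
    (T * (x ^ 3) ^ η * √(x * L)) * (x ^ η * L) + (I * (√(2 * x) * L)) +
      (3 * L) ≤ (T * K ^ 2 + √2 * I * K + 3 * K) * x ^ (1 / 2 + 6 * η) := by
  have hx0 : 0 < x := by linarith
  set y : ℝ := x ^ η with hy
  have hy1 : 1 ≤ y := one_le_rpow hx hη.le
  set s : ℝ := √x with hs
  have hs1 : 1 ≤ s := Real.one_le_sqrt.2 hx
  have e1 : (x ^ 3) ^ η = y ^ 3 := by
    rw [hy, ← rpow_natCast x 3, ← rpow_natCast (x ^ η) 3, ← rpow_mul hx0.le, ← rpow_mul hx0.le,
      mul_comm]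
  have hKy : 1 ≤ K * y := by nlinarith
  have e2 : √(x * L) ≤ s * (K * y) := by
    rw [Real.sqrt_mul hx0.le]
    refine mul_le_mul_of_nonneg_left ?_ (by positivity)
    refine (Real.sqrt_le_sqrt hL).trans ?_
    rw [Real.sqrt_le_left (by linarith)]
    nlinarith
  have e3 : √(2 * x) = √2 * s := Real.sqrt_mul (by norm_num) x
  have e4 : x ^ (1 / 2 + 6 * η) = s * y ^ 6 := by
    rw [rpow_add hx0, hs, Real.sqrt_eq_rpow, hy, ← rpow_natCast (x ^ η) 6, ← rpow_mul hx0.le]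
    congr 2
    push_cast
    ring
  have hy6 : 1 ≤ y ^ 6 := one_le_pow₀ hy1
  have hy5 : y ≤ y ^ 6 := by
    calc y = y ^ 1 := (pow_one y).symm
      _ ≤ y ^ 6 := pow_le_pow_right₀ hy1 (by norm_num)
  have hsq : 0 ≤ √(2 : ℝ) := Real.sqrt_nonneg 2
  rw [e1, e3, e4]
  have hK0 : 0 ≤ K := by linarith
  have hy0 : 0 ≤ y := by linarith
  have hs0 : 0 ≤ s := by linarith
  have t1 : (T * y ^ 3 * √(x * L)) * (y * L) ≤ T * K ^ 2 * (s * y ^ 6) := by
    calc (T * y ^ 3 * √(x * L)) * (y * L) ≤ (T * y ^ 3 * (s * (K * y))) * (y * (K * y)) := by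
          gcongr
      _ = T * K ^ 2 * (s * y ^ 6) := by ring
  have t2 : (I * (√2 * s * L)) ≤ √2 * I * K * (s * y ^ 6) := by
    calc (I * (√2 * s * L)) ≤ (I * (√2 * s * (K * y))) := by gcongr
      _ ≤ (I * (√2 * s * (K * y ^ 6))) := by gcongr
      _ = √2 * I * K * (s * y ^ 6) := by ring
  have t3 : (3 * L) ≤ 3 * K * (s * y ^ 6) := by
    calc (3 * L) ≤ (3 * (K * y)) := by gcongr
      _ ≤ (3 * (K * y ^ 6)) := by gcongr
      _ = 3 * K * (1 * y ^ 6) := by ring
      _ ≤ 3 * K * (s * y ^ 6) := by gcongr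
  calc _ ≤ T * K ^ 2 * (s * y ^ 6) + √2 * I * K * (s * y ^ 6) +
        3 * K * (s * y ^ 6) := add_le_add (add_le_add t1 t2) t3
    _ = _ := by ring

/-- D12. `∑_r v_r(n) log r ≤ log n ≤ 3 log P`, double counting of the pairs with `bb ≠ 0` by D5 with
`n = n_q ≤ P^3` (`r ∣ Sq N q ∣ q^n - 1`), D10 with `η`, `log P ≤ C P^η`, `η = ε/10`:
total `≤ P log n + (∑_q τ(n_q) √(P log P)) P^η log P + P I √(2P) log P ≤ C P^(3/2+ε)`. -/
theorem inerr_bound2 (ε : ℝ) (hε : 0 < ε) : ∃ C : ℝ, 0 ≤ C ∧ ∀ (N P : ℕ), Odd N → Nat.Perfect N →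
    (∀ p ∈ N.primeFactors, p ≤ P) → ∃ f : ℕ → ℕ, (∀ r ∈ N.primeFactors, f r ∈ N.primeFactors) ∧
      ∑ r ∈ N.primeFactors, ∑ q ∈ N.primeFactors.erase (f r), aa N q r ≤
        C * (N.primeFactors.card * (P : ℝ) ^ (1 / 2 + ε)) := by
  classical
  set η : ℝ := min (ε / 10) 1 with hηdef
  have hη : 0 < η := lt_min (by linarith) one_pos
  have hη1 : η ≤ 1 := min_le_right _ _
  have hηε : 6 * η ≤ ε := by
    have := min_le_left (ε / 10) 1
    linarith
  obtain ⟨I, hI⟩ := column_bound η hη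
  obtain ⟨T, hT1, hT⟩ := tau_bound η hη
  set K : ℝ := 1 / η with hKdef
  have hK : 1 ≤ K := by
    rw [hKdef, le_div_iff₀ hη]
    linarith
  refine ⟨T * K ^ 2 + √2 * I * K + 3 * K, by positivity, ?_⟩
  intro N P hodd hN hP
  rcases N.primeFactors.eq_empty_or_nonempty with hV | ⟨p0, hp0⟩
  · refine ⟨id, by simp [hV], ?_⟩
    rw [hV, Finset.sum_empty]
    positivity
  have hP1 : 1 ≤ P := (Nat.prime_of_mem_primeFactors hp0).one_lt.le.trans (hP p0 hp0)
  have hx : (1 : ℝ) ≤ P := by exact_mod_cast hP1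
  have hL0 : 0 ≤ log (P : ℝ) := log_nonneg hx
  have hL : log (P : ℝ) ≤ K * (P : ℝ) ^ η := by
    refine (Real.log_le_rpow_div (Nat.cast_nonneg P) hη).trans (le_of_eq ?_)
    rw [hKdef]
    ring
  set k : ℝ := (N.primeFactors.card : ℝ) with hkdef
  have hk0 : 0 ≤ k := Nat.cast_nonneg _
  have hcol := fun r hr => hI N P r hodd hN hP hr
  choose! f hf hfb using hcol
  refine ⟨f, hf, ?_⟩
  have hbb0 : ∀ q r, 0 ≤ (((nn N q).factorization r : ℝ) * log r) := fun q r =>
    mul_nonneg (Nat.cast_nonneg _) (log_natCast_nonneg r)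
  -- the bound for the number of exceptional pairs
  have hpairs : ∑ r ∈ N.primeFactors, ((N.primeFactors.filter (fun q => bb N q r ≠ 0)).card : ℝ) ≤
      k * (T * ((P : ℝ) ^ 3) ^ η * √(P * log P)) := by
    have h1 : ∑ r ∈ N.primeFactors, ((N.primeFactors.filter (fun q => bb N q r ≠ 0)).card : ℝ) =
        ∑ q ∈ N.primeFactors, ((N.primeFactors.filter (fun r => bb N q r ≠ 0)).card : ℝ) := by
      simp only [Finset.card_filter, Nat.cast_sum]
      exact Finset.sum_comm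
    rw [h1]
    have h2 : ∀ q ∈ N.primeFactors,
        ((N.primeFactors.filter (fun r => bb N q r ≠ 0)).card : ℝ) ≤
          T * ((P : ℝ) ^ 3) ^ η * √(P * log P) := by
      intro q hq
      refine (d12_card N P q hP hq).trans ?_
      refine mul_le_mul_of_nonneg_right ?_ (Real.sqrt_nonneg _)
      refine (hT (nn N q) (by unfold nn; omega)).trans ?_
      refine mul_le_mul_of_nonneg_left ?_ (by linarith)
      refine rpow_le_rpow (Nat.cast_nonneg _) ?_ hη.le
      exact_mod_cast nn_le N P q hodd hN hP hq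
    calc ∑ q ∈ N.primeFactors, ((N.primeFactors.filter (fun r => bb N q r ≠ 0)).card : ℝ)
        ≤ ∑ _q ∈ N.primeFactors, T * ((P : ℝ) ^ 3) ^ η * √(P * log P) := Finset.sum_le_sum h2
      _ = k * (T * ((P : ℝ) ^ 3) ^ η * √(P * log P)) := by
        rw [Finset.sum_const, nsmul_eq_mul]
  -- the part with the exponents
  have hexp : ∑ r ∈ N.primeFactors, ∑ q ∈ N.primeFactors.erase (f r),
      ((nn N q).factorization r : ℝ) * log r ≤ k * (3 * log P) := by
    calc ∑ r ∈ N.primeFactors, ∑ q ∈ N.primeFactors.erase (f r),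
          ((nn N q).factorization r : ℝ) * log r
        ≤ ∑ r ∈ N.primeFactors, ∑ q ∈ N.primeFactors,
          ((nn N q).factorization r : ℝ) * log r := by
          refine Finset.sum_le_sum fun r _ => ?_
          exact Finset.sum_le_sum_of_subset_of_nonneg (Finset.erase_subset _ _)
            fun q _ _ => hbb0 q r
      _ = ∑ q ∈ N.primeFactors, ∑ r ∈ N.primeFactors,
          ((nn N q).factorization r : ℝ) * log r := Finset.sum_comm
      _ ≤ ∑ _q ∈ N.primeFactors, 3 * log P := by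
          refine Finset.sum_le_sum fun q hq => (d12_logsum _ _).trans ?_
          have h1 : ((nn N q : ℕ) : ℝ) ≤ (P : ℝ) ^ 3 := by
            exact_mod_cast nn_le N P q hodd hN hP hq
          have h2 : (0 : ℝ) < ((nn N q : ℕ) : ℝ) := by
            unfold nn
            positivity
          have h3 := Real.log_le_log h2 h1
          rw [Real.log_pow] at h3
          exact_mod_cast h3
      _ = k * (3 * log P) := by rw [Finset.sum_const, nsmul_eq_mul]
  have hmain : ∑ r ∈ N.primeFactors, ∑ q ∈ N.primeFactors.erase (f r), bb N q r ≤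
      k * (T * ((P : ℝ) ^ 3) ^ η * √(P * log P)) * ((P : ℝ) ^ η * log P) +
        k * (I * (√(2 * P) * log P)) := by
    calc ∑ r ∈ N.primeFactors, ∑ q ∈ N.primeFactors.erase (f r), bb N q r
        ≤ ∑ r ∈ N.primeFactors,
          (((N.primeFactors.filter (fun q => bb N q r ≠ 0)).card : ℝ) *
            ((P : ℝ) ^ η * log P) + I * (√(2 * P) * log P)) :=
          Finset.sum_le_sum fun r hr => hfb r hr
      _ = (∑ r ∈ N.primeFactors, ((N.primeFactors.filter (fun q => bb N q r ≠ 0)).card : ℝ)) *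
            ((P : ℝ) ^ η * log P) + k * (I * (√(2 * P) * log P)) := by
          rw [Finset.sum_add_distrib, Finset.sum_mul, Finset.sum_const, nsmul_eq_mul]
      _ ≤ _ := by
          exact add_le_add (mul_le_mul_of_nonneg_right hpairs (by positivity)) le_rfl
  calc ∑ r ∈ N.primeFactors, ∑ q ∈ N.primeFactors.erase (f r), aa N q r
      ≤ ∑ r ∈ N.primeFactors, ∑ q ∈ N.primeFactors.erase (f r),
        (bb N q r + ((nn N q).factorization r : ℝ) * log r) := by
        refine Finset.sum_le_sum fun r hr => Finset.sum_le_sum fun q hq => ?_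
        exact aa_le N q r hodd hN (Finset.mem_of_mem_erase hq) hr
    _ = (∑ r ∈ N.primeFactors, ∑ q ∈ N.primeFactors.erase (f r), bb N q r) +
        ∑ r ∈ N.primeFactors, ∑ q ∈ N.primeFactors.erase (f r),
          ((nn N q).factorization r : ℝ) * log r := by
        rw [← Finset.sum_add_distrib]
        refine Finset.sum_congr rfl fun r _ => Finset.sum_add_distrib
    _ ≤ (k * (T * ((P : ℝ) ^ 3) ^ η * √(P * log P)) * ((P : ℝ) ^ η * log P) +
        k * (I * (√(2 * P) * log P))) + k * (3 * log P) := add_le_add hmain hexp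
    _ = k * ((T * ((P : ℝ) ^ 3) ^ η * √(P * log P)) * ((P : ℝ) ^ η * log P) +
        (I * (√(2 * P) * log P)) + (3 * log P)) := by ring
    _ ≤ k * ((T * K ^ 2 + √2 * I * K + 3 * K) * (P : ℝ) ^ (1 / 2 + 6 * η)) :=
        mul_le_mul_of_nonneg_left
          (d12_real hη hK (by linarith) (Nat.cast_nonneg I) hx hL0 hL) hk0
    _ ≤ k * ((T * K ^ 2 + √2 * I * K + 3 * K) * (P : ℝ) ^ (1 / 2 + ε)) := by
        refine mul_le_mul_of_nonneg_left (mul_le_mul_of_nonneg_left ?_ (by positivity)) hk0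
        exact rpow_le_rpow_of_exponent_le hx (by linarith)
    _ = _ := by ring

/-- D15. Theorem (a).  `N` has a prime `≥ 3`, so `P ≥ 3`, `log P ≥ 1`.  D14 with `V = N.primeFactors`, `m = mass N`
(`mass ≥ log 3 ≥ 1`), `a = aa N`, `f` and `E = C P^(3/2+ε/2)` from D12, `δ = 1/(C (log P)^C)` and `Lg = log P + 1` from
D13, `Mx = P^4` (`mass ≤ n log P ≤ P^3 P`), `V.card ≤ P`; finally `(log P)^K ≤ C P^(ε/2)`. -/
theorem average (ε : ℝ) (hε : 0 < ε) : ∃ C : ℝ, ∀ N P : ℕ, Odd N → Nat.Perfect N →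
    (∀ p ∈ N.primeFactors, p ≤ P) → log N ≤ C * (N.primeFactors.card * (P : ℝ) ^ (1 / 2 + ε)) := by
  obtain ⟨C, hC0, hC⟩ := inerr_bound2 (ε / 2) (by positivity)
  obtain ⟨Cb, hCb1, hCb⟩ := baker_step
  set K' : ℕ := 2 * Cb + 2 with hK'
  have hK'0 : (0 : ℝ) < K' := by rw [hK']; positivity
  set η : ℝ := ε / (2 * K') with hη
  have hη0 : 0 < η := by positivity
  refine ⟨50 * Cb ^ 2 * (C + 3) * (1 / η) ^ K', ?_⟩
  intro N P hodd hN hP
  obtain ⟨f, hf, hfE⟩ := hC N P hodd hN hP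
  set V := N.primeFactors with hV
  have h3 : ∀ q ∈ V, (3 : ℝ) ≤ q := fun q hq => d15_three_le hodd hq
  have hN1 : N ≠ 1 := by
    rintro rfl
    have := (Nat.perfect_iff_sum_divisors_eq_two_mul (by norm_num)).1 hN
    simp at this
  have hne : V.Nonempty := Nat.nonempty_primeFactors.2 (by
    have := hN.2
    omega)
  obtain ⟨p0, hp0⟩ := hne
  have hP3 : (3 : ℝ) ≤ P := (h3 p0 hp0).trans (by exact_mod_cast hP p0 hp0)
  have hP0 : (0 : ℝ) < P := by linarith
  have hP1 : (1 : ℝ) ≤ P := by linarith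
  set l := log (P : ℝ) with hl
  have hl1 : 1 ≤ l := d15_log3 hP3
  have hl0 : 0 < l := by linarith
  have hlP : l ≤ P := (log_le_sub_one_of_pos hP0).trans (by linarith)
  have hlq : ∀ q ∈ V, log (q : ℝ) ≤ l := fun q hq =>
    log_le_log (by linarith [h3 q hq]) (by exact_mod_cast hP q hq)
  have hlq1 : ∀ q ∈ V, 1 ≤ log (q : ℝ) := fun q hq => d15_log3 (h3 q hq)
  have hCb1' : (1 : ℝ) ≤ Cb := by exact_mod_cast hCb1
  have hden : (1 : ℝ) ≤ Cb * l ^ Cb := one_le_mul_of_one_le_of_one_le hCb1' (one_le_pow₀ hl1)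
  have hden0 : (0 : ℝ) < Cb * l ^ Cb := by linarith
  have hm0 : ∀ q ∈ V, 0 ≤ mass N q := fun q hq =>
    mul_nonneg (Nat.cast_nonneg _) (by linarith [hlq1 q hq])
  have haa0 : ∀ q ∈ V, ∀ r ∈ V, 0 ≤ aa N q r := fun q hq r hr =>
    mul_nonneg (Nat.cast_nonneg _) (by linarith [hlq1 r hr])
  have hk0 : (0 : ℝ) ≤ V.card := Nat.cast_nonneg _
  set E : ℝ := C * (V.card * (P : ℝ) ^ (1 / 2 + ε / 2)) with hE
  have hE0 : 0 ≤ E := by positivity
  have hpot := potential V (mass N) (fun r => ∑ q ∈ V.erase (f r), aa N q r) (aa N) f hf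
    (1 / (Cb * l ^ Cb)) (l + 1) E ((P : ℝ) ^ 4) (by positivity)
    (by rw [div_le_one hden0]; exact hden) (by linarith) hE0 (one_le_pow₀ hP1) haa0
    (fun r hr => sum_nonneg fun q hq => haa0 q (mem_of_mem_erase hq) r hr)
    (fun q hq => row_sum N q hN hq)
    (fun r hr => by
      have h1 := col_sum N r hodd hN hr
      rw [← h1, ← Finset.add_sum_erase V (fun q => aa N q r) (hf r hr)])
    (fun r hr => hCb N P hodd hN hP (f r) (hf r hr) r hr)
    (fun q hq => by
      have h1 : (1 : ℝ) ≤ (N.factorization q : ℝ) := by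
        have hq' := Nat.mem_primeFactors.1 hq
        have := (hq'.1.dvd_iff_one_le_factorization hq'.2.2).1 hq'.2.1
        exact_mod_cast this
      have h2 := hlq1 q hq
      calc (1 : ℝ) = 1 * 1 := by ring
        _ ≤ mass N q := mul_le_mul h1 h2 (by norm_num) (by linarith))
    (fun q hq => by
      have h1 : (nn N q : ℝ) ≤ (P : ℝ) ^ 3 := by exact_mod_cast nn_le N P q hodd hN hP hq
      have h2 : (N.factorization q : ℝ) ≤ (P : ℝ) ^ 3 := by
        have : (nn N q : ℝ) = (N.factorization q : ℝ) + 1 := by push_cast; ring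
        linarith
      calc mass N q ≤ (P : ℝ) ^ 3 * P := mul_le_mul h2 ((hlq q hq).trans hlP)
            (by linarith [hlq1 q hq]) (by positivity)
        _ = (P : ℝ) ^ 4 := by ring)
    hfE
  rw [log_eq_sum N hN.2.ne']
  refine hpot.trans ?_
  -- simplify the bound
  have hlM : log ((P : ℝ) ^ 4) = 4 * l := by rw [log_pow]; push_cast; ring
  rw [hlM]
  have hδ : 10 / (1 / (Cb * l ^ Cb)) ^ 2 = 10 * (Cb : ℝ) ^ 2 * l ^ (2 * Cb) := by
    field_simp
    ring
  rw [hδ]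
  have hPe : (1 : ℝ) ≤ (P : ℝ) ^ (1 / 2 + ε / 2) := one_le_rpow hP1 (by linarith)
  set Z : ℝ := V.card * (P : ℝ) ^ (1 / 2 + ε / 2) with hZ
  have hZ0 : 0 ≤ Z := by positivity
  have hkZ : (V.card : ℝ) ≤ Z := le_mul_of_one_le_right hk0 hPe
  have hS : E + V.card * (1 + (l + 1)) ≤ (C + 3) * Z * l := by
    have h1 : E ≤ C * Z * l := by
      rw [hE]
      exact le_mul_of_one_le_right (by positivity) hl1
    have h2 : (V.card : ℝ) * (1 + (l + 1)) ≤ Z * (3 * l) :=
      mul_le_mul hkZ (by linarith) (by linarith) hZ0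
    linarith [show (C + 3) * Z * l = C * Z * l + Z * (3 * l) by ring]
  have hlK : l ^ K' ≤ (1 / η) ^ K' * (P : ℝ) ^ (ε / 2) := by
    have h1 : l ≤ (P : ℝ) ^ η / η := log_le_rpow_div hP0.le hη0
    have h2 : l ^ K' ≤ ((P : ℝ) ^ η / η) ^ K' := pow_le_pow_left₀ hl0.le h1 K'
    have h3 : ((P : ℝ) ^ η / η) ^ K' = (1 / η) ^ K' * (P : ℝ) ^ (ε / 2) := by
      rw [div_eq_mul_one_div, mul_pow, mul_comm, ← rpow_natCast ((P : ℝ) ^ η) K', ← rpow_mul hP0.le]
      congr 2
      rw [hη]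
      field_simp
    linarith
  calc 10 * (Cb : ℝ) ^ 2 * l ^ (2 * Cb) * (1 + 4 * l) * (E + V.card * (1 + (l + 1)))
      ≤ 10 * (Cb : ℝ) ^ 2 * l ^ (2 * Cb) * (5 * l) * ((C + 3) * Z * l) := by
        gcongr
        linarith
    _ = 50 * (Cb : ℝ) ^ 2 * (C + 3) * Z * l ^ K' := by rw [hK', pow_add]; ring
    _ ≤ 50 * (Cb : ℝ) ^ 2 * (C + 3) * Z * ((1 / η) ^ K' * (P : ℝ) ^ (ε / 2)) := by
        gcongr
    _ = 50 * (Cb : ℝ) ^ 2 * (C + 3) * (1 / η) ^ K' * (Z * (P : ℝ) ^ (ε / 2)) := by ring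
    _ = 50 * (Cb : ℝ) ^ 2 * (C + 3) * (1 / η) ^ K' * (V.card * (P : ℝ) ^ (1 / 2 + ε)) := by
        rw [hZ, mul_assoc (V.card : ℝ), ← rpow_add hP0]
        congr 3
        ring

end Pool.Agent.Lib.MP_f02ea4_nt.AE
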