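import Mathlib
import Pool.Agent.Lib.MP_f02ea4_nt.Mg.G016

/-! Elimination with bounded loss, part B. -/

set_option autoImplicit false

namespace Pool.Agent.Lib.MP_f02ea4_nt.AE

open Finset Real
open Pool.Agent.Lib.MP_f02ea4_nt.Ml (pR pR_ge baker_sym comb_small)

/-- the loss of Baker's theorem for `h` logarithms -/
noncomputable def DD (h E Y : ℕ) : ℝ := (pR h E Y : ℝ) ^ (32 * h + 64)

lemma pR_mono {a b : ℕ} (hab : a ≤ b) (E Y : ℕ) : pR a E Y ≤ pR b E Y := by
  unfold pR
  exact Nat.mul_le_mul_right _ (Nat.mul_le_mul_right _ (Nat.mul_le_mul_left _ hab))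

lemma DD_ge {h E Y : ℕ} (hh : 1 ≤ h) (hE : 1 ≤ E) (hY : 1 ≤ Y) : 100 ≤ DD h E Y := by
  have h1 : (100 : ℝ) ≤ pR h E Y := by exact_mod_cast (pR_ge h E Y hh hE hY).1
  have h2 : (pR h E Y : ℝ) ≤ DD h E Y := by
    unfold DD
    calc (pR h E Y : ℝ) = (pR h E Y : ℝ) ^ 1 := (pow_one _).symm
      _ ≤ _ := pow_le_pow_right₀ (by linarith) (by omega)
  linarith

lemma DD_mono {a b E Y : ℕ} (ha : 1 ≤ a) (hE : 1 ≤ E) (hY : 1 ≤ Y) (hab : a ≤ b) :
    (pR a E Y : ℝ) ^ (32 * a + 64) ≤ DD b E Y := by
  have h1 : (1 : ℝ) ≤ pR b E Y := by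
    have := (pR_ge b E Y (ha.trans hab) hE hY).1
    have h2 : 1 ≤ pR b E Y := by omega
    exact_mod_cast h2
  have h3 : (pR a E Y : ℝ) ≤ pR b E Y := by exact_mod_cast pR_mono hab E Y
  unfold DD
  exact (pow_le_pow_left₀ (Nat.cast_nonneg _) h3 _).trans (pow_le_pow_right₀ h1 (by omega))

lemma fac_mul_log_le (M r : ℕ) (hM : 1 ≤ M) (hr : r.Prime) :
    ((M.factorization r : ℕ) : ℝ) * log r ≤ log M := by
  have h2 : r ^ M.factorization r ≤ M := Nat.ordProj_le r (by omega)
  rw [← Real.log_pow]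
  refine Real.log_le_log ?_ (by exact_mod_cast h2)
  have : (0 : ℝ) < r := by exact_mod_cast hr.pos
  positivity

/-- the height of the fraction `A/B` -/
lemma height_bound {ι : Type} [Fintype ι] [DecidableEq ι] (M : ι → ℕ) (L H : Finset ℕ)
    (c : ι → ℤ) (Cm t : ℕ) (hcard : Fintype.card ι = t) (hc : ∀ i, |c i| ≤ Cm) (w Δ : ℝ)
    (hw : ∀ i, ∑ r ∈ (M i).primeFactors \ (H ∪ L), ((M i).factorization r : ℝ) * log r ≤ w)
    (hΔ : ∀ Q ∈ L, |∑ i, (c i : ℝ) * (((M i).factorization Q : ℝ) * log Q)| ≤ Δ)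
    (hL : ∀ Q ∈ L, Q.Prime) (hΔ0 : 0 ≤ Δ) :
    ∑ q ∈ (Finset.univ.biUnion fun j => (M j).primeFactors) \ H,
      |((∑ j, c j * ((M j).factorization q : ℤ) : ℤ) : ℝ)| * log q ≤ t * Cm * w + L.card * Δ := by
  classical
  have hcR : ∀ i, |(c i : ℝ)| ≤ Cm := by
    intro i
    have : ((|c i| : ℤ) : ℝ) ≤ ((Cm : ℤ) : ℝ) := by exact_mod_cast hc i
    push_cast at this
    exact this
  set U : Finset ℕ := Finset.univ.biUnion fun j => (M j).primeFactors with hU
  set G : ℕ → ℤ := fun q => ∑ j, c j * ((M j).factorization q : ℤ) with hG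
  have hGR : ∀ q, (G q : ℝ) = ∑ j, (c j : ℝ) * ((M j).factorization q : ℝ) := by
    intro q
    rw [hG]
    push_cast
    rfl
  have hprime : ∀ q ∈ U, q.Prime := by
    intro q hq
    rw [hU, Finset.mem_biUnion] at hq
    obtain ⟨j, _, hj⟩ := hq
    exact Nat.prime_of_mem_primeFactors hj
  have hlog : ∀ q ∈ U, 0 ≤ log (q : ℝ) := fun q hq =>
    Real.log_nonneg (by exact_mod_cast (hprime q hq).one_lt.le)
  have hsplit : ∑ q ∈ U \ H, |(G q : ℝ)| * log q =
      ∑ q ∈ (U \ H).filter (· ∈ L), |(G q : ℝ)| * log q +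
        ∑ q ∈ (U \ H).filter (fun q => ¬ q ∈ L), |(G q : ℝ)| * log q :=
    (Finset.sum_filter_add_sum_filter_not _ _ _).symm
  have h1 : ∑ q ∈ (U \ H).filter (· ∈ L), |(G q : ℝ)| * log q ≤ L.card * Δ := by
    have h2 : ∀ q ∈ (U \ H).filter (· ∈ L), |(G q : ℝ)| * log q ≤ Δ := by
      intro q hq
      rw [Finset.mem_filter, Finset.mem_sdiff] at hq
      have h3 := hΔ q hq.2
      have h4 : ∑ i, (c i : ℝ) * (((M i).factorization q : ℝ) * log q) = (G q : ℝ) * log q := by
        rw [hGR, Finset.sum_mul]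
        exact Finset.sum_congr rfl fun i _ => by ring
      rw [h4, abs_mul, abs_of_nonneg (hlog q hq.1.1)] at h3
      exact h3
    refine (Finset.sum_le_card_nsmul _ _ _ h2).trans ?_
    rw [nsmul_eq_mul]
    have h5 : ((U \ H).filter (· ∈ L)).card ≤ L.card :=
      Finset.card_le_card fun q hq => (Finset.mem_filter.1 hq).2
    exact mul_le_mul_of_nonneg_right (by exact_mod_cast h5) hΔ0
  have h6 : ∑ q ∈ (U \ H).filter (fun q => ¬ q ∈ L), |(G q : ℝ)| * log q ≤ t * Cm * w := by
    set S := (U \ H).filter (fun q => ¬ q ∈ L) with hS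
    have hSU : ∀ q ∈ S, q ∈ U := by
      intro q hq
      rw [hS, Finset.mem_filter, Finset.mem_sdiff] at hq
      exact hq.1.1
    have h7 : ∀ q ∈ S, |(G q : ℝ)| * log q ≤
        ∑ j, |(c j : ℝ)| * (((M j).factorization q : ℝ) * log q) := by
      intro q hq
      have h2 : |(G q : ℝ)| ≤ ∑ j, |(c j : ℝ)| * ((M j).factorization q : ℝ) := by
        rw [hGR]
        refine (Finset.abs_sum_le_sum_abs _ _).trans (le_of_eq ?_)
        refine Finset.sum_congr rfl fun j _ => ?_
        rw [abs_mul, Nat.abs_cast]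
      refine (mul_le_mul_of_nonneg_right h2 (hlog q (hSU q hq))).trans (le_of_eq ?_)
      rw [Finset.sum_mul]
      exact Finset.sum_congr rfl fun j _ => by ring
    refine (Finset.sum_le_sum h7).trans ?_
    rw [Finset.sum_comm]
    have h3 : ∀ j ∈ (Finset.univ : Finset ι), ∑ q ∈ S, |(c j : ℝ)| *
        (((M j).factorization q : ℝ) * log q) ≤ Cm * w := by
      intro j _
      rw [← Finset.mul_sum]
      have h5 : 0 ≤ ∑ q ∈ S, ((M j).factorization q : ℝ) * log q :=
        Finset.sum_nonneg fun q hq => mul_nonneg (Nat.cast_nonneg _) (hlog q (hSU q hq))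
      have h4 : ∑ q ∈ S, ((M j).factorization q : ℝ) * log q ≤ w := by
        refine le_trans ?_ (hw j)
        have h8 : ∑ q ∈ S, ((M j).factorization q : ℝ) * log q =
            ∑ q ∈ S.filter (· ∈ (M j).primeFactors), ((M j).factorization q : ℝ) * log q := by
          symm
          apply Finset.sum_subset (Finset.filter_subset _ _)
          intro q hq hnot
          have h : ¬ q ∈ (M j).primeFactors := fun h => hnot (Finset.mem_filter.2 ⟨hq, h⟩)
          have h0 : (M j).factorization q = 0 := by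
            rw [← Finsupp.notMem_support_iff, Nat.support_factorization]
            exact h
          rw [h0]
          simp
        rw [h8]
        refine Finset.sum_le_sum_of_subset_of_nonneg ?_ ?_
        · intro q hq
          rw [Finset.mem_filter, hS, Finset.mem_filter, Finset.mem_sdiff] at hq
          rw [Finset.mem_sdiff, Finset.mem_union]
          exact ⟨hq.2, fun h => h.elim hq.1.1.2 hq.1.2⟩
        · intro q hq _
          have hqp := Nat.prime_of_mem_primeFactors (Finset.mem_sdiff.1 hq).1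
          exact mul_nonneg (Nat.cast_nonneg _)
            (Real.log_nonneg (by exact_mod_cast hqp.one_lt.le))
      exact mul_le_mul (hcR j) h4 h5 (Nat.cast_nonneg _)
    refine (Finset.sum_le_sum h3).trans (le_of_eq ?_)
    rw [Finset.sum_const, Finset.card_univ, hcard, nsmul_eq_mul]
    ring
  change ∑ q ∈ U \ H, |(G q : ℝ)| * log q ≤ _
  rw [hsplit]
  linarith

/-- ELIMINATION WITH BOUNDED LOSS -/
theorem elim2 {ι : Type} [Fintype ι] [DecidableEq ι] (p n : ι → ℕ) (hp : ∀ i, (p i).Prime)
    (hinj : Function.Injective p) (hn1 : ∀ i, 1 ≤ n i) (L H : Finset ℕ)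
    (hHp : ∀ r ∈ H, r.Prime) (hpH : ∀ i, p i ∈ H) (hLp : ∀ Q ∈ L, Q.Prime)
    (t h : ℕ) (hcard : Fintype.card ι = t) (htL : 2 * (L.card + 1) ≤ t) (hHh : H.card ≤ h)
    (w Z ρ : ℝ) (E Y V Cm Bb : ℕ)
    (hw : ∀ i, ∑ r ∈ (p i ^ n i - 1).primeFactors \ (H ∪ L),
      ((p i ^ n i - 1).factorization r : ℝ) * log r ≤ w)
    (hli : ∀ i j, i ≠ j → ((p j ^ n j - 1).factorization (p i) : ℝ) * log (p i) ≤ w)
    (hZ0 : 0 < Z) (hZ : ∀ i, Z ≤ n i * log (p i)) (hρ : ∀ i, (n i : ℝ) * log (p i) ≤ ρ * Z)
    (hE1 : 1 ≤ E) (hEH : ∀ r ∈ H, log (r : ℝ) ≤ E) (hEw : (E : ℝ) ≤ w) (hV : ∀ i, n i ≤ V)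
    (hY1 : 1 ≤ Y) (hCm : 2 * (t : ℝ) ^ 2 * DD h E Y * ρ ≤ Cm)
    (hBb : 3 * (t * Cm * V * E : ℝ) + 1 ≤ Bb)
    (hY : log (Bb : ℝ) + log (1 + (t * Cm * w + Z)) ≤ Y) :
    Z ≤ 3 * (t * Cm * w * DD h E Y) := by
  classical
  by_contra hcon
  rw [not_le] at hcon
  -- basic facts
  have ht2 : 2 ≤ t := by omega
  have ht1R : (2 : ℝ) ≤ t := by exact_mod_cast ht2
  have hιne : Nonempty ι := by
    rw [← Fintype.card_pos_iff, hcard]
    omega
  have hHcard : t ≤ H.card := by
    have h1 : (Finset.univ.image p).card ≤ H.card := by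
      apply Finset.card_le_card
      intro x hx
      obtain ⟨i, _, rfl⟩ := Finset.mem_image.1 hx
      exact hpH i
    rw [Finset.card_image_of_injective _ hinj, Finset.card_univ, hcard] at h1
    exact h1
  have hh1 : 1 ≤ h := by omega
  have hD100 : 100 ≤ DD h E Y := DD_ge hh1 hE1 hY1
  set D := DD h E Y with hDdef
  have hE1R : (1 : ℝ) ≤ E := by exact_mod_cast hE1
  have hw1 : 1 ≤ w := hE1R.trans hEw
  obtain ⟨i1⟩ := hιne
  have hρ1 : 1 ≤ ρ := by
    have h1 := (hZ i1).trans (hρ i1)
    by_contra hlt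
    rw [not_le] at hlt
    nlinarith
  have hCm1R : (1 : ℝ) ≤ Cm := by
    refine le_trans ?_ hCm
    have h1 : (1 : ℝ) ≤ (t : ℝ) ^ 2 := by nlinarith
    have h2 : (1 : ℝ) ≤ 2 * (t : ℝ) ^ 2 * D := by nlinarith
    nlinarith
  have hCm1 : 1 ≤ Cm := by exact_mod_cast hCm1R
  set M : ι → ℕ := fun i => p i ^ n i - 1 with hMdef
  have hpn2 : ∀ i, 2 ≤ p i ^ n i := by
    intro i
    calc 2 ≤ p i := (hp i).two_le
      _ = p i ^ 1 := (pow_one _).symm
      _ ≤ p i ^ n i := Nat.pow_le_pow_right (hp i).pos (hn1 i)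
  have hM1 : ∀ i, 1 ≤ M i := by
    intro i
    have := hpn2 i
    simp only [hMdef]
    omega
  have hMeq : ∀ i, p i ^ n i = 1 + M i := by
    intro i
    have := hpn2 i
    simp only [hMdef]
    omega
  have hlogM : ∀ i, log (M i : ℝ) ≤ n i * log (p i) := by
    intro i
    rw [← Real.log_pow]
    refine Real.log_le_log (by exact_mod_cast hM1 i) ?_
    have : M i ≤ p i ^ n i := by rw [hMeq i]; omega
    exact_mod_cast this
  have hlogp : ∀ i, 0 ≤ log (p i : ℝ) := fun i =>
    Real.log_nonneg (by exact_mod_cast (hp i).one_lt.le)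
  -- pigeonhole
  set Δ : ℝ := Z / (2 * t * D) with hΔdef
  have hΔ0 : 0 < Δ := by positivity
  have hbox : t * Cm * (ρ * Z) ≤ (Cm : ℝ) ^ 2 * Δ := by
    have h1 : (Cm : ℝ) ^ 2 * Δ = (Cm * Z / (2 * t * D)) * Cm := by
      rw [hΔdef]; ring
    rw [h1]
    have h2 : (Cm * Z / (2 * t * D)) * (2 * (t : ℝ) ^ 2 * D * ρ) = t * Cm * (ρ * Z) := by
      field_simp
    rw [← h2]
    exact mul_le_mul_of_nonneg_left hCm (by positivity)
  obtain ⟨c, hc0, hc, hcL⟩ := small_comb2 L
    (fun Q i => ((M i).factorization Q : ℝ) * log Q) t Cm Δ (ρ * Z) hcard (by omega) hCm1 hΔ0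
    (fun Q hQ i => mul_nonneg (Nat.cast_nonneg _)
      (Real.log_nonneg (by exact_mod_cast (hLp Q hQ).one_lt.le)))
    (fun Q hQ i => ((fac_mul_log_le (M i) Q (hM1 i) (hLp Q hQ)).trans (hlogM i)).trans (hρ i))
    hbox
  have hcR : ∀ i, |(c i : ℝ)| ≤ Cm := by
    intro i
    have : ((|c i| : ℤ) : ℝ) ≤ ((Cm : ℤ) : ℝ) := by exact_mod_cast hc i
    push_cast at this
    exact this
  -- upper bound
  have hup := comb_small (κ := Empty) p n M (fun k => k.elim) (fun k _ => k.elim)
    (fun i => (hp i).two_le) hn1 hM1 (fun k => k.elim) (fun i => by simpa using hMeq i) Z hZ c Cm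
    hc (fun k => k.elim)
  rw [hcard] at hup
  -- decomposition
  have hheight := height_bound M L H c Cm t hcard hc w Δ hw hcL hLp hΔ0.le
  have hLΔ : (L.card : ℝ) * Δ ≤ Z / (4 * D) := by
    have h1 : 2 * ((L.card : ℝ) + 1) ≤ t := by exact_mod_cast htL
    have h2 : (L.card : ℝ) ≤ t / 2 := by linarith
    calc (L.card : ℝ) * Δ ≤ (t / 2) * Δ := mul_le_mul_of_nonneg_right h2 hΔ0.le
      _ = Z / (4 * D) := by rw [hΔdef]; field_simp; ring
  have himg : Finset.univ.image (Subtype.val : H → ℕ) = H := by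
    ext x
    simp
  set K : ℝ := t * Cm * w + Z / (4 * D) with hKdef
  obtain ⟨A, B, hA, hB, hAB, hAa, hBa, hsum, hAK, hBK⟩ := decompose2
    (Subtype.val : H → ℕ) (fun s => hHp s.1 s.2) Subtype.val_injective M c K (by
      rw [himg]
      linarith)
  set β : H → ℤ := fun s => ∑ j, c j * ((M j).factorization s.1 : ℤ) with hβ
  set b : H → ℤ := fun s => (∑ i, if p i = s.1 then c i * (n i : ℤ) else 0) - β s with hb
  -- the linear form
  have hfirst : ∑ s : H, ((∑ i, if p i = s.1 then c i * (n i : ℤ) else 0 : ℤ) : ℝ) * log (s.1 : ℝ)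
      = ∑ i, (c i : ℝ) * n i * log (p i) := by
    have h1 : ∀ s : H, ((∑ i, if p i = s.1 then c i * (n i : ℤ) else 0 : ℤ) : ℝ) * log (s.1 : ℝ)
        = ∑ i, if p i = s.1 then (c i : ℝ) * n i * log (p i) else 0 := by
      intro s
      push_cast
      rw [Finset.sum_mul]
      refine Finset.sum_congr rfl fun i _ => ?_
      split_ifs with h
      · rw [h]
      · simp
    rw [Finset.sum_congr rfl fun s _ => h1 s, Finset.sum_comm]
    refine Finset.sum_congr rfl fun i _ => ?_
    rw [Finset.sum_eq_single (⟨p i, hpH i⟩ : H)]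
    · simp
    · intro s _ hs
      rw [if_neg]
      intro h
      exact hs (Subtype.ext h.symm)
    · intro h
      exact absurd (Finset.mem_univ _) h
  have hform : ∑ i, (c i : ℝ) * (n i * log (p i) - log (M i)) =
      ∑ s, (b s : ℝ) * log (s.1 : ℝ) - (log (A : ℝ) - log (B : ℝ)) := by
    have h1 : ∑ i, (c i : ℝ) * (n i * log (p i) - log (M i)) =
        ∑ i, (c i : ℝ) * n i * log (p i) - ∑ i, (c i : ℝ) * log (M i) := by
      rw [← Finset.sum_sub_distrib]
      exact Finset.sum_congr rfl fun i _ => by ring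
    have h2 : ∑ s, (b s : ℝ) * log (s.1 : ℝ) =
        ∑ s : H, ((∑ i, if p i = s.1 then c i * (n i : ℤ) else 0 : ℤ) : ℝ) * log (s.1 : ℝ) -
          ∑ s : H, (β s : ℝ) * log (s.1 : ℝ) := by
      rw [← Finset.sum_sub_distrib]
      refine Finset.sum_congr rfl fun s _ => ?_
      rw [hb, ← sub_mul]
      push_cast
      rfl
    have hsum' : ∑ i, (c i : ℝ) * log (M i) = log A - log B +
        ∑ s : H, (β s : ℝ) * log (s.1 : ℝ) := hsum
    rw [h1, hsum', h2, hfirst]
    ring
  -- bounds of the coefficients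
  have hlogH : ∀ s : H, (1 : ℝ) / 2 ≤ log (s.1 : ℝ) := by
    intro s
    have h5 := Real.log_le_log (by norm_num : (0 : ℝ) < 2)
      (by exact_mod_cast (hHp s.1 s.2).two_le : (2 : ℝ) ≤ s.1)
    have h6 := Real.log_two_gt_d9
    linarith
  have hnV : ∀ i, (n i : ℝ) ≤ V := fun i => by exact_mod_cast hV i
  have hnlog : ∀ i, (n i : ℝ) * log (p i) ≤ V * E := by
    intro i
    exact mul_le_mul (hnV i) (hEH _ (hpH i)) (hlogp i) (Nat.cast_nonneg _)
  have hVE0 : (0 : ℝ) ≤ V * E := by positivity
  have hbR : ∀ s, |(b s : ℝ)| ≤ Bb := by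
    intro s
    have h1 : |((∑ i, if p i = s.1 then c i * (n i : ℤ) else 0 : ℤ) : ℝ)| ≤ t * (Cm * (V * E)) := by
      push_cast
      refine (Finset.abs_sum_le_sum_abs _ _).trans ?_
      have h2 : ∀ i ∈ (Finset.univ : Finset ι),
          |if p i = s.1 then (c i : ℝ) * (n i : ℝ) else 0| ≤ Cm * (V * E) := by
        intro i _
        split_ifs with h
        · rw [abs_mul, Nat.abs_cast]
          refine mul_le_mul (hcR i) ?_ (Nat.cast_nonneg _) (Nat.cast_nonneg _)
          have h3 := hnV i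
          have h4 : (V : ℝ) * 1 ≤ V * E := mul_le_mul_of_nonneg_left hE1R (Nat.cast_nonneg _)
          linarith
        · rw [abs_zero]
          positivity
      refine (Finset.sum_le_sum h2).trans (le_of_eq ?_)
      rw [Finset.sum_const, Finset.card_univ, hcard, nsmul_eq_mul]
    have h5 : |(β s : ℝ)| ≤ t * (Cm * (2 * (V * E))) := by
      rw [hβ]
      push_cast
      refine (Finset.abs_sum_le_sum_abs _ _).trans ?_
      have h2 : ∀ j ∈ (Finset.univ : Finset ι),
          |(c j : ℝ) * ((M j).factorization s.1 : ℝ)| ≤ Cm * (2 * (V * E)) := by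
        intro j _
        rw [abs_mul, Nat.abs_cast]
        refine mul_le_mul (hcR j) ?_ (Nat.cast_nonneg _) (Nat.cast_nonneg _)
        have h3 := ((fac_mul_log_le (M j) s.1 (hM1 j) (hHp s.1 s.2)).trans (hlogM j)).trans
          (hnlog j)
        have h4 := hlogH s
        have h6 : (0 : ℝ) ≤ ((M j).factorization s.1 : ℝ) := Nat.cast_nonneg _
        nlinarith
      refine (Finset.sum_le_sum h2).trans (le_of_eq ?_)
      rw [Finset.sum_const, Finset.card_univ, hcard, nsmul_eq_mul]
    have h7 : ((b s : ℤ) : ℝ) =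
        ((∑ i, if p i = s.1 then c i * (n i : ℤ) else 0 : ℤ) : ℝ) - (β s : ℝ) := by
      rw [hb]
      push_cast
      rfl
    rw [h7]
    refine (abs_sub _ _).trans ?_
    have h8 : (t : ℝ) * (Cm * (V * E)) + t * (Cm * (2 * (V * E))) = 3 * (t * Cm * V * E) := by ring
    linarith
  have hbZ : ∀ s, |b s| ≤ Bb := by
    intro s
    have h1 := hbR s
    have h2 : ((|b s| : ℤ) : ℝ) ≤ ((Bb : ℤ) : ℝ) := by
      push_cast
      exact h1
    exact_mod_cast h2
  have hBb1 : 1 ≤ Bb := by
    have h1 : (0 : ℝ) ≤ 3 * (t * Cm * V * E : ℝ) := by positivity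
    have h2 : (1 : ℝ) ≤ Bb := by linarith
    exact_mod_cast h2
  -- sizes
  have htC : (0 : ℝ) < t * Cm := by positivity
  have hTw : 1 ≤ t * Cm * w := by
    have h1 : (1 : ℝ) ≤ t * Cm := by nlinarith
    nlinarith
  have hZD : Z / (4 * D) ≤ Z := by
    rw [div_le_iff₀ (by positivity)]
    nlinarith
  have hZD0 : 0 < Z / (4 * D) := by positivity
  have hcardH : Fintype.card H = H.card := Fintype.card_coe H
  -- lower bound
  have hlow : exp (-(t * Cm * w * D + Z / 4)) ≤
      |∑ i, (c i : ℝ) * (n i * log (p i) - log (M i))| := by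
    by_cases hne : A = B
    · -- A = B
      have hAB0 : log (A : ℝ) - log (B : ℝ) = 0 := by rw [hne]; ring
      obtain ⟨i2, hi2⟩ := Function.ne_iff.1 hc0
      obtain ⟨i0, _, hmax⟩ := Finset.exists_max_image (Finset.univ : Finset ι)
        (fun i => (c i).natAbs) ⟨i1, Finset.mem_univ _⟩
      have hC0 : 1 ≤ (c i0).natAbs := by
        have h1 := hmax i2 (Finset.mem_univ _)
        have h2 : 0 < (c i2).natAbs := Int.natAbs_pos.2 hi2
        omega
      set s0 : H := ⟨p i0, hpH i0⟩ with hs0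
      have hbs0 : b s0 ≠ 0 := by
        intro h0
        have hfst : (∑ i, if p i = s0.1 then c i * (n i : ℤ) else 0) = c i0 * n i0 := by
          rw [Finset.sum_eq_single i0]
          · simp [hs0]
          · intro i _ hi
            rw [if_neg]
            intro h
            exact hi (hinj h)
          · intro h
            exact absurd (Finset.mem_univ _) h
        have h1 : c i0 * n i0 = ∑ j, c j * ((M j).factorization (p i0) : ℤ) := by
          have h2 : b s0 = c i0 * n i0 - ∑ j, c j * ((M j).factorization (p i0) : ℤ) := by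
            simp only [hb, hβ]
            rw [hfst]
          rw [h2] at h0
          linarith
        have h0' : (M i0).factorization (p i0) = 0 := by
          apply Nat.factorization_eq_zero_of_not_dvd
          intro hd
          have h3 : p i0 ∣ p i0 ^ n i0 := dvd_pow_self _ (by have := hn1 i0; omega)
          rw [hMeq i0] at h3
          have h4 : p i0 ∣ 1 := (Nat.dvd_add_left hd).1 h3
          exact (hp i0).one_lt.ne' (Nat.dvd_one.1 h4)
        have h5 : ((c i0).natAbs : ℝ) * (n i0 * log (p i0)) ≤ ((c i0).natAbs : ℝ) * (t * w) := by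
          have h6 : ((c i0 : ℝ) * n i0) * log (p i0) =
              ∑ j, (c j : ℝ) * (((M j).factorization (p i0) : ℝ) * log (p i0)) := by
            have h7 : ((c i0 : ℝ) * n i0) = ∑ j, (c j : ℝ) * ((M j).factorization (p i0) : ℝ) := by
              have h8 : ((c i0 * n i0 : ℤ) : ℝ) =
                  ((∑ j, c j * ((M j).factorization (p i0) : ℤ) : ℤ) : ℝ) := by rw [h1]
              push_cast at h8
              exact h8
            rw [h7, Finset.sum_mul]
            exact Finset.sum_congr rfl fun j _ => by ring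
          have h9 : |((c i0 : ℝ) * n i0) * log (p i0)| = ((c i0).natAbs : ℝ) * (n i0 * log (p i0)) := by
            rw [abs_mul, abs_mul, Nat.abs_cast, abs_of_nonneg (hlogp i0), Nat.cast_natAbs]
            push_cast
            ring
          rw [← h9, h6]
          refine (Finset.abs_sum_le_sum_abs _ _).trans ?_
          have h10 : ∀ j ∈ (Finset.univ : Finset ι),
              |(c j : ℝ) * (((M j).factorization (p i0) : ℝ) * log (p i0))| ≤
                ((c i0).natAbs : ℝ) * w := by
            intro j _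
            rw [abs_mul]
            have h11 : |(c j : ℝ)| ≤ ((c i0).natAbs : ℝ) := by
              have h12 := hmax j (Finset.mem_univ _)
              have h13 : |(c j : ℝ)| = ((c j).natAbs : ℝ) := by
                rw [Nat.cast_natAbs]
                push_cast
                rfl
              rw [h13]
              exact_mod_cast h12
            have h14 : |((M j).factorization (p i0) : ℝ) * log (p i0)| ≤ w := by
              rw [abs_of_nonneg (mul_nonneg (Nat.cast_nonneg _) (hlogp i0))]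
              by_cases hj : i0 = j
              · rw [← hj, h0']
                simp
                linarith
              · exact hli i0 j hj
            exact mul_le_mul h11 h14 (abs_nonneg _) (Nat.cast_nonneg _)
          refine (Finset.sum_le_sum h10).trans (le_of_eq ?_)
          rw [Finset.sum_const, Finset.card_univ, hcard, nsmul_eq_mul]
          ring
        have h15 : (0 : ℝ) < ((c i0).natAbs : ℝ) := by exact_mod_cast hC0
        have h16 : (n i0 : ℝ) * log (p i0) ≤ t * w := le_of_mul_le_mul_left h5 h15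
        have h17 := hZ i0
        have h18 : t * w ≤ t * Cm * w * D := by
          have h19 : (t : ℝ) * w ≤ t * Cm * w := by
            have : 0 ≤ (t : ℝ) * w := by positivity
            nlinarith
          nlinarith
        nlinarith
      have hcard' : Fintype.card {s : H // s ≠ s0} = H.card - 1 := by
        rw [Fintype.card_subtype_compl, Fintype.card_subtype_eq, hcardH]
      have hEX : (E : ℝ) ≤ t * Cm * w := by
        have h1 : w ≤ t * Cm * w := by
          have h2 : 1 ≤ (t : ℝ) * Cm := by nlinarith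
          nlinarith
        linarith
      have key := baker_sym (ι := {s : H // s ≠ s0}) (H.card - 1) hcard' (by omega)
        (fun s => s.1.1) (fun s => (hHp s.1.1 s.1.2).two_le) (p i0) 1 (hp i0).one_lt.le le_rfl
        (hp i0).one_lt.ne' (Nat.coprime_one_right _)
        (fun s => (Nat.coprime_primes (hp i0) (hHp s.1.1 s.1.2)).2 fun h =>
          s.2 (Subtype.ext h.symm))
        (fun s => Nat.coprime_one_left _) (b s0) hbs0 (fun s => -b s.1) E Y Bb hE1 hY1 hBb1
        (fun s => hEH s.1.1 s.1.2) (hbZ s0) (fun s => by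
          rw [abs_neg]
          exact hbZ s.1) E (hEH _ (hpH i0)) (by
          rw [Nat.cast_one, Real.log_one]
          linarith) (by
          have h1 := Real.log_le_log (by linarith : (0 : ℝ) < 1 + E)
            (by linarith : (1 : ℝ) + E ≤ 1 + (t * Cm * w + Z))
          linarith)
      have hform' : ∑ i, (c i : ℝ) * (n i * log (p i) - log (M i)) =
          (b s0 : ℝ) * (log (p i0 : ℝ) - log ((1 : ℕ) : ℝ)) -
            ∑ s : {s : H // s ≠ s0}, ((-b s.1 : ℤ) : ℝ) * log (s.1.1 : ℝ) := by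
        have h3 : ∑ s, (b s : ℝ) * log (s.1 : ℝ) = (b s0 : ℝ) * log (p i0) +
            ∑ s : {s : H // s ≠ s0}, (b s.1 : ℝ) * log (s.1.1 : ℝ) := by
          rw [← Finset.add_sum_erase _ _ (Finset.mem_univ s0)]
          congr 1
          rw [← Finset.sum_subtype (Finset.univ.erase s0) (fun x => by simp)
            (fun s : H => (b s : ℝ) * log (s.1 : ℝ))]
        rw [hform, hAB0, sub_zero, h3]
        push_cast
        simp only [neg_mul, Finset.sum_neg_distrib, Real.log_one]
        ring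
      rw [hform']
      refine le_trans (exp_le_exp.2 ?_) key
      refine neg_le_neg ?_
      have hmono : (pR (H.card - 1) E Y : ℝ) ^ (32 * (H.card - 1) + 64) ≤ D :=
        DD_mono (by omega) hE1 hY1 (by omega)
      have h20 : (E : ℝ) * (pR (H.card - 1) E Y : ℝ) ^ (32 * (H.card - 1) + 64) ≤
          t * Cm * w * D := by
        refine mul_le_mul hEX hmono (pow_nonneg (Nat.cast_nonneg _) _) (by linarith)
      have h21 : 0 ≤ Z / 4 := by positivity
      linarith
    · have key := baker_sym (ι := H) H.card hcardH (by omega) (fun s => s.1)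
        (fun s => (hHp s.1 s.2).two_le) A B hA hB hne hAB hAa hBa
        1 one_ne_zero b E Y Bb hE1 hY1 hBb1 (fun s => hEH s.1 s.2) (by
          rw [abs_one]
          exact_mod_cast hBb1) hbZ K hAK hBK (by
          have h1 : 1 + K ≤ 1 + (t * Cm * w + Z) := by rw [hKdef]; linarith
          have h2 : 0 < 1 + K := by rw [hKdef]; linarith
          have h3 := Real.log_le_log h2 h1
          linarith)
      have hform' : |∑ i, (c i : ℝ) * (n i * log (p i) - log (M i))| =
          |((1 : ℤ) : ℝ) * (log (A : ℝ) - log (B : ℝ)) - ∑ s, (b s : ℝ) * log (s.1 : ℝ)| := by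
        rw [hform, ← abs_neg]
        congr 1
        push_cast
        ring
      rw [hform']
      refine le_trans (exp_le_exp.2 ?_) key
      refine neg_le_neg ?_
      have hmono : (pR H.card E Y : ℝ) ^ (32 * H.card + 64) ≤ D :=
        DD_mono (by omega) hE1 hY1 hHh
      have h20 : K * (pR H.card E Y : ℝ) ^ (32 * H.card + 64) ≤ K * D :=
        mul_le_mul_of_nonneg_left hmono (by rw [hKdef]; linarith)
      have h21 : K * D = t * Cm * w * D + Z / 4 := by
        rw [hKdef]
        field_simp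
      linarith
  -- conclusion
  set T : ℝ := t * Cm * w * D with hT
  have hTC : 100 * (t * Cm) ≤ T := by
    have h1 : (t : ℝ) * Cm * 1 ≤ t * Cm * w := mul_le_mul_of_nonneg_left hw1 htC.le
    have h2 : (t : ℝ) * Cm * w * 100 ≤ T := mul_le_mul_of_nonneg_left hD100 (by positivity)
    linarith
  have h1 : exp (-(T + Z / 4)) ≤ 2 * t * Cm * exp (-Z) := hlow.trans hup
  have h4 : exp (3 / 4 * Z - T) ≤ 2 * t * Cm := by
    have h5 := mul_le_mul_of_nonneg_right h1 (exp_pos Z).le
    rw [← Real.exp_add, mul_assoc, ← Real.exp_add] at h5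
    have e1 : -(T + Z / 4) + Z = 3 / 4 * Z - T := by ring
    have e2 : -Z + Z = 0 := by ring
    rw [e1, e2, Real.exp_zero, mul_one] at h5
    exact h5
  have h6 := Real.add_one_le_exp (3 / 4 * Z - T)
  linarith

end Pool.Agent.Lib.MP_f02ea4_nt.AE
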