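import Mathlib
import Pool.Agent.Lib.MP_f02ea4_nt.AE.ElimB

/-! Numbers, uniform in `A` (MP_f02ea4 candidate 22, page 706 + addendum). -/

set_option autoImplicit false

namespace Pool.Agent.Lib.MP_f02ea4_nt.AE

open Finset Real
open Pool.Agent.Lib.MP_f02ea4_nt.Ml (pR)

/-- choice of `C1` -/
lemma n2_exists_C1 (K1 K2 : ℝ) (hK1 : 0 ≤ K1) (hK2 : 0 ≤ K2) :
    ∃ C1 : ℝ, 3 ≤ C1 ∧ K1 + K2 * log C1 ≤ C1 := by
  set s : ℝ := K1 + 2 * K2 + 3 with hs
  have hs3 : 3 ≤ s := by linarith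
  have hs0 : 0 < s := by linarith
  refine ⟨s ^ 2, by nlinarith, ?_⟩
  rw [Real.log_pow]
  have h1 : log s ≤ s := (Real.log_le_sub_one_of_pos hs0).trans (by linarith)
  push_cast
  have h2 : K2 * (2 * log s) ≤ K2 * (2 * s) := by
    apply mul_le_mul_of_nonneg_left _ hK2
    linarith
  nlinarith

/-- bounds for `log R`, `R = 100 h E Y` -/
lemma n2_logR (h E Y : ℕ) (lam a1 C1 C : ℝ) (hlam : 1 ≤ lam) (ha1 : 1 ≤ a1)
    (hC1 : 1 ≤ C1) (hh1 : 1 ≤ h) (hE1 : 1 ≤ E) (hY1 : 1 ≤ Y)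
    (hh : (h : ℝ) ≤ a1 * lam ^ 2) (hE : (E : ℝ) ≤ 2 * lam ^ 2) (hY : (Y : ℝ) ≤ 2 * C1 * lam ^ 6)
    (hC : 400 * a1 * C1 ≤ C) :
    log (pR h E Y : ℝ) ≤ 10 * log (C * lam) ∧
      log (pR h E Y : ℝ) ≤ log (400 * a1) + log C1 + 10 * log lam ∧
      4 ≤ log (pR h E Y : ℝ) := by
  have hlam0 : 0 < lam := by linarith
  have hh0 : (0 : ℝ) < h := by exact_mod_cast hh1
  have hE0 : (0 : ℝ) < E := by exact_mod_cast hE1
  have hY0 : (0 : ℝ) < Y := by exact_mod_cast hY1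
  have e : (pR h E Y : ℝ) = 100 * h * E * Y := by unfold pR; push_cast; ring
  have hRpos : (0 : ℝ) < 100 * h * E * Y := by positivity
  have hR : (100 * h * E * Y : ℝ) ≤ 400 * a1 * C1 * lam ^ 10 := by
    calc (100 * h * E * Y : ℝ) ≤ 100 * (a1 * lam ^ 2) * (2 * lam ^ 2) * (2 * C1 * lam ^ 6) := by
          have h1 : (100 * h : ℝ) ≤ 100 * (a1 * lam ^ 2) := by linarith
          have h2 : (100 * h * E : ℝ) ≤ 100 * (a1 * lam ^ 2) * (2 * lam ^ 2) :=
            mul_le_mul h1 hE hE0.le (by positivity)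
          exact mul_le_mul h2 hY hY0.le (by positivity)
      _ = 400 * a1 * C1 * lam ^ 10 := by ring
  have hC20 : (1 : ℝ) ≤ 400 * a1 * C1 := by
    have h2 : 1 ≤ a1 * C1 := one_le_mul_of_one_le_of_one_le ha1 hC1
    linarith
  have hC0 : 0 < C := by linarith
  rw [e]
  refine ⟨?_, ?_, ?_⟩
  · have h1 : (100 * h * E * Y : ℝ) ≤ (C * lam) ^ 10 := by
      refine hR.trans ?_
      rw [mul_pow]
      apply mul_le_mul_of_nonneg_right _ (by positivity)
      have hC1' : 1 ≤ C := by linarith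
      calc 400 * a1 * C1 ≤ C := hC
        _ = C ^ 1 := (pow_one C).symm
        _ ≤ C ^ 10 := pow_le_pow_right₀ hC1' (by norm_num)
    have h2 := Real.log_le_log hRpos h1
    rw [Real.log_pow] at h2
    push_cast at h2
    exact h2
  · have h2 := Real.log_le_log hRpos hR
    have h3 : log (400 * a1 * C1 * lam ^ 10) = log (400 * a1) + log C1 + 10 * log lam := by
      rw [Real.log_mul (by positivity) (by positivity),
        Real.log_mul (x := 400 * a1) (by positivity) (by positivity), Real.log_pow]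
      push_cast
      ring
    linarith
  · have h1 : (100 : ℝ) ≤ 100 * h * E * Y := by
      have h2 : (1 : ℝ) ≤ h := by exact_mod_cast hh1
      have h3 : (1 : ℝ) ≤ E := by exact_mod_cast hE1
      have h4 : (1 : ℝ) ≤ Y := by exact_mod_cast hY1
      have h6 : (1 : ℝ) ≤ h * E * Y :=
        one_le_mul_of_one_le_of_one_le (one_le_mul_of_one_le_of_one_le h2 h3) h4
      linarith
    rw [Real.le_log_iff_exp_le hRpos]
    refine le_trans ?_ h1
    have h2 : Real.exp 1 < 2.7182818286 := Real.exp_one_lt_d9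
    have h3 : Real.exp 4 = Real.exp 1 ^ 4 := by rw [← Real.exp_nat_mul]; norm_num
    rw [h3]
    calc Real.exp 1 ^ 4 ≤ (2.7182818286 : ℝ) ^ 4 :=
          pow_le_pow_left₀ (Real.exp_pos 1).le h2.le 4
      _ ≤ 100 := by norm_num

lemma n2_log_three : log (3 : ℝ) ≤ 1.1 := by
  rw [Real.log_le_iff_le_exp (by norm_num)]
  have h5 : Real.exp (1.1 : ℝ) = Real.exp 1 * Real.exp 0.1 := by
    rw [← Real.exp_add]; norm_num
  have h6 : 2.7182818283 < Real.exp 1 := Real.exp_one_gt_d9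
  have h7 : (1.105 : ℝ) ≤ Real.exp 0.1 := by
    have := Real.quadratic_le_exp_of_nonneg (show (0 : ℝ) ≤ 0.1 by norm_num)
    norm_num at this ⊢
    linarith
  rw [h5]
  nlinarith

/-- `i ≤ 2 (1 + log k)` if `2 ^ i ≤ 2 k + 1` -/
lemma n2_i_le (i k : ℕ) (h : 2 ^ i ≤ 2 * k + 1) : (i : ℝ) ≤ 2 * (1 + log k) := by
  rcases Nat.eq_zero_or_pos k with hk | hk
  · subst hk
    have : i = 0 := by
      by_contra hi
      have h1 : 2 ^ 1 ≤ 2 ^ i := Nat.pow_le_pow_right (by norm_num) (by omega)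
      omega
    rw [this]
    simp
  · have h1 : (2 : ℝ) ^ i ≤ 3 * k := by
      have h2 : 2 ^ i ≤ 3 * k := by omega
      exact_mod_cast h2
    have hk0 : (0 : ℝ) < k := by exact_mod_cast hk
    have h2 := Real.log_le_log (by positivity) h1
    rw [Real.log_pow, Real.log_mul (by norm_num) hk0.ne'] at h2
    have h3 := n2_log_three
    have h4 : (0.69 : ℝ) < log 2 := by
      have := Real.log_two_gt_d9
      linarith
    have hlk : 0 ≤ log (k : ℝ) := Real.log_nonneg (by exact_mod_cast hk)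
    have hi0 : (0 : ℝ) ≤ i := Nat.cast_nonneg _
    nlinarith

lemma n2_two_log_succ (k : ℕ) : 2 * log ((k : ℝ) + 1) ≤ 2 * (1 + log k) := by
  rcases Nat.eq_zero_or_pos k with hk | hk
  · subst hk
    simp
  · have hk0 : (1 : ℝ) ≤ k := by exact_mod_cast hk
    have h1 := Real.log_le_log (by linarith : (0 : ℝ) < (k : ℝ) + 1)
      (by linarith : (k : ℝ) + 1 ≤ 2 * k)
    rw [Real.log_mul (by norm_num) (by linarith)] at h1
    have := Real.log_two_lt_d9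
    linarith

/-- the bracket (`l = log y`, `Z = X^(1/4)`) -/
lemma n2_bracket (X A Z P l : ℝ) (k V : ℕ) (hX : 1 ≤ X) (hl : 0 ≤ l)
    (hylam : l ≤ A * (1 + log X)) (hA : 1 ≤ A) (hV1 : 1 ≤ V) (hV : (V : ℝ) ≤ 3 * X)
    (hZ : 1 ≤ Z) (hP : 1 ≤ P) :
    k * l + P * (k * ((k + 1) * (Z * l) + 2 * l + log V + 2)) +
      log (4 * X) ≤ P * Z * ((4 * A + 6) * ((k : ℝ) + 1) ^ 2 * (1 + log X)) := by
  have hlX : 0 ≤ log X := Real.log_nonneg hX
  set lam := 1 + log X with hlam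
  have hlam1 : 1 ≤ lam := by linarith
  have hk0 : (0 : ℝ) ≤ k := Nat.cast_nonneg _
  have hv : log (V : ℝ) + 2 ≤ 4 * lam := by
    have h1 : log (V : ℝ) ≤ log (3 * X) := Real.log_le_log (by exact_mod_cast hV1) hV
    rw [Real.log_mul (by norm_num) (by linarith)] at h1
    have := n2_log_three
    linarith
  have hw : log (4 * X) ≤ 2 * lam := by
    rw [Real.log_mul (by norm_num) (by linarith)]
    have h1 : log (4 : ℝ) = 2 * log 2 := by
      rw [show (4 : ℝ) = 2 ^ 2 by norm_num, Real.log_pow]; push_cast; ring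
    have := Real.log_two_lt_d9
    linarith
  have hP0 : 0 ≤ P := by linarith
  have hZ0 : 0 ≤ Z := by linarith
  have hA0 : 0 ≤ A := by linarith
  have hPZ : 1 ≤ P * Z := one_le_mul_of_one_le_of_one_le hP hZ
  have hPZ0 : 0 ≤ P * Z := by linarith
  -- first term
  have t1 : k * l ≤ P * Z * (k * (A * lam)) := by
    have h1 : k * l ≤ k * (A * lam) := mul_le_mul_of_nonneg_left hylam hk0
    have h2 : 0 ≤ k * (A * lam) := by positivity
    have h3 : 1 * (k * (A * lam)) ≤ P * Z * (k * (A * lam)) := mul_le_mul_of_nonneg_right hPZ h2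
    linarith
  have t2 : P * (k * ((k + 1) * (Z * l) + 2 * l + log V + 2)) ≤
      P * Z * (k * ((k + 1) * (A * lam) + 2 * (A * lam) + 4 * lam)) := by
    rw [mul_assoc]
    apply mul_le_mul_of_nonneg_left _ hP0
    rw [mul_left_comm Z]
    apply mul_le_mul_of_nonneg_left _ hk0
    have h1 : Z * l ≤ Z * (A * lam) := mul_le_mul_of_nonneg_left hylam hZ0
    have h2 : (k + 1) * (Z * l) ≤ (k + 1) * (Z * (A * lam)) :=
      mul_le_mul_of_nonneg_left h1 (by linarith)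
    have h3 : 2 * l + (log V + 2) ≤ 2 * (A * lam) + 4 * lam := by linarith
    have h4 : 0 ≤ 2 * (A * lam) + 4 * lam := by positivity
    have h5 : 1 * (2 * (A * lam) + 4 * lam) ≤ Z * (2 * (A * lam) + 4 * lam) :=
      mul_le_mul_of_nonneg_right hZ h4
    linarith [h2, h3, h5]
  have t3 : log (4 * X) ≤ P * Z * (2 * lam) := by
    have h2 : 0 ≤ 2 * lam := by positivity
    have h3 : 1 * (2 * lam) ≤ P * Z * (2 * lam) := mul_le_mul_of_nonneg_right hPZ h2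
    linarith
  have t4 : P * Z * (k * (A * lam)) + P * Z * (k * ((k + 1) * (A * lam) + 2 * (A * lam) + 4 * lam))
      + P * Z * (2 * lam) ≤ P * Z * ((4 * A + 6) * ((k : ℝ) + 1) ^ 2 * lam) := by
    rw [← mul_add, ← mul_add]
    apply mul_le_mul_of_nonneg_left _ hPZ0
    have h1 : k * (A * lam) + k * ((k + 1) * (A * lam) + 2 * (A * lam) + 4 * lam) + 2 * lam =
        (A * k ^ 2 + 4 * A * k + 4 * k + 2) * lam := by ring
    rw [h1]
    apply mul_le_mul_of_nonneg_right _ (by linarith)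
    have h2 : 0 ≤ A * (k : ℝ) ^ 2 := by positivity
    have h3 : 0 ≤ A * (k : ℝ) := by positivity
    have h4 : 0 ≤ (k : ℝ) ^ 2 := by positivity
    have h5 : (4 * A + 6) * ((k : ℝ) + 1) ^ 2 = 4 * (A * (k : ℝ) ^ 2) + 8 * (A * k) + 4 * A +
      6 * (k : ℝ) ^ 2 + 12 * k + 6 := by ring
    rw [h5]
    linarith
  linarith

/-- the factor `2 ^ (2 j + u)` -/
lemma n2_u (g I j t u : ℕ) (W L : ℝ) (hg : g = 2 * I) (ht : t = 2 * (j + 1)) (hW : 0 ≤ W)
    (hL : 128 * (t * (g + 1) : ℝ) ≤ L)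
    (hu : (u : ℝ) ≤ 1 + 2 * (t * (g + I + 1) * (1 + W / L))) :
    (2 * j + u : ℝ) * log 2 ≤ (6 + 12 * (I : ℝ)) * (j + 1) + W / 4 := by
  have ht0 : (t : ℝ) = 2 * (j + 1) := by rw [ht]; push_cast; ring
  have hj0 : (0 : ℝ) ≤ j := Nat.cast_nonneg _
  have hg0 : (0 : ℝ) ≤ g := Nat.cast_nonneg _
  have hI0 : (0 : ℝ) ≤ I := Nat.cast_nonneg _
  have hgI : (g : ℝ) = 2 * I := by rw [hg]; push_cast; ring
  have htpos : (0 : ℝ) < t := by rw [ht0]; linarith
  have hLpos : 0 < L := by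
    have : 0 < 128 * (t * (g + 1) : ℝ) := by positivity
    linarith
  have h1 : (t * (g + I + 1) : ℝ) * (W / L) ≤ W / 64 := by
    rw [mul_div_assoc', div_le_div_iff₀ hLpos (by norm_num)]
    have h2 : (t * (g + I + 1) : ℝ) * 64 ≤ 128 * (t * (g + 1)) := by
      have h3 : (g + I + 1 : ℝ) ≤ 2 * (g + 1) := by linarith
      nlinarith
    have h4 : (t * (g + I + 1) : ℝ) * 64 ≤ L := h2.trans hL
    nlinarith
  have h5 : (u : ℝ) ≤ 1 + 2 * (t * (g + I + 1)) + W / 32 := by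
    have : (1 : ℝ) + 2 * (t * (g + I + 1) * (1 + W / L)) =
        1 + 2 * (t * (g + I + 1)) + 2 * ((t * (g + I + 1) : ℝ) * (W / L)) := by ring
    rw [this] at hu
    linarith
  have hlog2 : log (2 : ℝ) ≤ 1 := by
    have := Real.log_two_lt_d9
    linarith
  have h6 : (0 : ℝ) ≤ 2 * j + u := by positivity
  have h7 : (2 * j + u : ℝ) * log 2 ≤ (2 * j + u) * 1 := mul_le_mul_of_nonneg_left hlog2 h6
  rw [ht0, hgI] at h5
  have h8 : 2 * (2 * ((j : ℝ) + 1) * (2 * I + I + 1)) = (4 + 12 * I) * (j + 1) := by ring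
  rw [h8] at h5
  linarith

/-- Final step: logarithms of the main inequality. -/
lemma n2_final (X A Lc a2 a3 S : ℝ) (j k i w : ℕ) (Cn : ℕ) (hX : 1 ≤ X) (hA : 1 ≤ A)
    (hAlam : A ≤ 1 + log X) (hLc : Lc = log (Cn * (1 + log X)))
    (hLc1 : 1 ≤ Lc) (hC4 : 4 ≤ Cn) (ha2 : 0 ≤ a2) (ha3 : 0 ≤ a3)
    (hCa : 2 * (a3 + 13 + 80 * a2) ≤ (Cn : ℝ)) (hS1 : 1 ≤ S)
    (hS : log S ≤ (4 + 40 * a2) * (A * (j + 1) * Lc)) (hi : 2 ^ i ≤ 2 * k + 1)
    (hw : (w : ℝ) * log 2 ≤ a3 * (A * (j + 1)) + (log X + 2 * Lc) / 4)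
    (hmain : X ≤ 2 ^ w * (S ^ i * X ^ (1 / 4 : ℝ) *
      ((4 * A + 6) * ((k : ℝ) + 1) ^ 2 * (1 + log X)))) :
    X ≤ (Cn * (1 + log X)) ^ (Cn * (A * ((j : ℝ) + 1) * (1 + log k))) := by
  have hlX : 0 ≤ log X := Real.log_nonneg hX
  set lam := 1 + log X with hlam
  have hlam1 : 1 ≤ lam := by linarith
  have hlam0 : 0 < lam := by linarith
  have hX0 : 0 < X := by linarith
  have hA0 : 0 < A := by linarith
  have hC4r : (4 : ℝ) ≤ Cn := by exact_mod_cast hC4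
  have hC0 : (0 : ℝ) < Cn := by linarith
  have hj0 : (0 : ℝ) ≤ j := Nat.cast_nonneg _
  have hlk : 0 ≤ log (k : ℝ) := Real.log_natCast_nonneg k
  have hS0 : 0 < S := by linarith
  have hk1 : (0 : ℝ) < (k : ℝ) + 1 := by positivity
  have hXq : 0 < X ^ (1 / 4 : ℝ) := Real.rpow_pos_of_pos hX0 _
  have h1 := Real.log_le_log hX0 hmain
  have hBl : 0 < (4 * A + 6) * lam := by positivity
  have h2 : log (2 ^ w * (S ^ i * X ^ (1 / 4 : ℝ) * ((4 * A + 6) * ((k : ℝ) + 1) ^ 2 * lam))) =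
      w * log 2 + (i * log S + 1 / 4 * log X +
        (log ((4 * A + 6) * lam) + 2 * log ((k : ℝ) + 1))) := by
    have e1 : (4 * A + 6) * ((k : ℝ) + 1) ^ 2 * lam = ((4 * A + 6) * lam) * ((k : ℝ) + 1) ^ 2 := by
      ring
    rw [e1, Real.log_mul (by positivity) (by positivity), Real.log_pow,
      Real.log_mul (x := S ^ i * X ^ (1 / 4 : ℝ)) (by positivity) (by positivity),
      Real.log_mul (x := S ^ i) (by positivity) (by positivity), Real.log_pow,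
      Real.log_rpow hX0, Real.log_mul (x := (4 * A + 6) * lam) hBl.ne' (by positivity),
      Real.log_pow]
    push_cast
    ring
  rw [h2] at h1
  have h3 : log ((4 * A + 6) * lam) ≤ 2 * Lc := by
    have e : 2 * Lc = log ((Cn * lam) ^ 2) := by
      rw [Real.log_pow, hLc]; push_cast; ring
    rw [e]
    apply Real.log_le_log hBl
    have h4 : 4 * A + 6 ≤ 10 * lam := by linarith
    calc (4 * A + 6) * lam ≤ 10 * lam * lam := mul_le_mul_of_nonneg_right h4 hlam0.le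
      _ = 10 * lam ^ 2 := by ring
      _ ≤ (Cn : ℝ) ^ 2 * lam ^ 2 := by
          apply mul_le_mul_of_nonneg_right _ (by positivity)
          have := pow_le_pow_left₀ (by norm_num : (0 : ℝ) ≤ 4) hC4r 2
          linarith
      _ = (Cn * lam) ^ 2 := by ring
  have h4 := n2_two_log_succ k
  have hii := n2_i_le i k hi
  have hlS : 0 ≤ log S := Real.log_nonneg hS1
  set M := (4 + 40 * a2) * (A * (j + 1) * Lc) with hM
  have hM0 : 0 ≤ M := by positivity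
  have h5 : i * log S ≤ 2 * (1 + log k) * M := by
    calc i * log S ≤ 2 * (1 + log k) * log S := mul_le_mul_of_nonneg_right hii hlS
      _ ≤ 2 * (1 + log k) * M := mul_le_mul_of_nonneg_left hS (by linarith)
  set Q := A * (j + 1 : ℝ) * (1 + log k) * Lc with hQ
  have hj1 : (1 : ℝ) ≤ j + 1 := by linarith
  have hk2 : (1 : ℝ) ≤ 1 + log k := by linarith
  have hAj1 : (1 : ℝ) ≤ A * (j + 1) := one_le_mul_of_one_le_of_one_le hA hj1
  have hAjk : (1 : ℝ) ≤ A * (j + 1) * (1 + log k) := one_le_mul_of_one_le_of_one_le hAj1 hk2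
  have hQ1 : Lc ≤ Q := by
    have : 1 * Lc ≤ A * (j + 1 : ℝ) * (1 + log k) * Lc :=
      mul_le_mul_of_nonneg_right hAjk (by linarith)
    linarith
  have hQ2 : A * (j + 1 : ℝ) ≤ Q := by
    have h6 : A * (j + 1) * 1 ≤ A * (j + 1 : ℝ) * ((1 + log k) * Lc) :=
      mul_le_mul_of_nonneg_left (one_le_mul_of_one_le_of_one_le hk2 hLc1) (by linarith)
    rw [hQ]
    linarith
  have hQ3 : (1 + log k : ℝ) ≤ Q := by
    have h6 : (1 + log k : ℝ) * 1 ≤ (1 + log k : ℝ) * (A * (j + 1) * Lc) :=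
      mul_le_mul_of_nonneg_left (one_le_mul_of_one_le_of_one_le hAj1 hLc1) (by linarith)
    rw [hQ]
    linarith
  have h6 : 2 * (1 + log k) * M = (8 + 80 * a2) * Q := by
    rw [hM, hQ]; ring
  have h7 : a3 * (A * (j + 1)) ≤ a3 * Q := mul_le_mul_of_nonneg_left hQ2 ha3
  have h8 : 1 / 2 * log X ≤ (a3 + 13 + 80 * a2) * Q := by
    have : (a3 + 13 + 80 * a2) * Q = a3 * Q + (8 + 80 * a2) * Q + 5 * Q := by ring
    linarith
  have h9 : log X ≤ Cn * Q := by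
    have hQ0 : 0 ≤ Q := by linarith
    have h10 : 2 * (a3 + 13 + 80 * a2) * Q ≤ Cn * Q := mul_le_mul_of_nonneg_right hCa hQ0
    linarith
  have hCl : 0 < (Cn : ℝ) * lam := by positivity
  rw [Real.rpow_def_of_pos hCl, ← Real.log_le_iff_le_exp hX0, ← hLc]
  have : Lc * (Cn * (A * ((j : ℝ) + 1) * (1 + log k))) = Cn * Q := by
    rw [hQ]; ring
  rw [this]
  exact h9

/-- condition (9) -/
lemma n2_cond9 (X C1 a1 cB lam D lR h t V E Cm Bb Yr : ℝ) (hlam : lam = 1 + log X) (hX : 1 ≤ X)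
    (hC13 : 3 ≤ C1) (ha1 : 2 ≤ a1) (hcB : 0 ≤ cB)
    (hC1 : 16 + 4 * (32 * a1 + 64) * (cB + 10) + 4 * (32 * a1 + 64) * log C1 ≤ C1)
    (hlogD : log D = (32 * h + 64) * lR) (hlR0 : 0 ≤ lR) (hlR : lR ≤ cB + log C1 + 10 * log lam)
    (hh : h ≤ a1 * lam ^ 2) (hD : 1 ≤ D) (ht : 1 ≤ t) (htlam : t ≤ 2 * lam)
    (hV1 : 1 ≤ V) (hV : V ≤ 3 * X) (hE1 : 1 ≤ E) (hE : E ≤ 2 * lam ^ 2) (hCm1 : 1 ≤ Cm)
    (hCm2 : Cm ≤ 3 * t ^ 2 * (D * D)) (hBb0 : 0 < Bb) (hBb : Bb ≤ 5 * (t * Cm * V * E))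
    (hY : C1 * lam ^ 6 ≤ Yr) :
    log Bb + log (1 + (t * Cm * (V * E) + V * E)) ≤ Yr := by
  have hlX : 0 ≤ log X := Real.log_nonneg hX
  have hX0 : 0 < X := by linarith
  have hlam1 : 1 ≤ lam := by linarith
  have hlam0 : 0 < lam := by linarith
  have hD0 : 0 < D := by linarith
  have ht0 : 0 < t := by linarith
  have hV0 : 0 < V := by linarith
  have hE0 : 0 < E := by linarith
  have hCm0 : 0 < Cm := by linarith
  have hlt : log t ≤ log 2 + log lam := by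
    rw [← Real.log_mul (by norm_num) hlam0.ne']
    exact Real.log_le_log ht0 htlam
  have hllam : log lam ≤ lam - 1 := Real.log_le_sub_one_of_pos hlam0
  have hllam0 : 0 ≤ log lam := Real.log_nonneg hlam1
  have hlV : log V ≤ log 3 + log X := by
    rw [← Real.log_mul (by norm_num) hX0.ne']
    exact Real.log_le_log hV0 hV
  have hlE : log E ≤ log 2 + 2 * log lam := by
    have h1 : log (lam ^ 2) = 2 * log lam := by rw [Real.log_pow]; push_cast; ring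
    rw [← h1, ← Real.log_mul (by norm_num) (by positivity)]
    exact Real.log_le_log hE0 hE
  have hl2 : log (2 : ℝ) < 0.6931471808 := Real.log_two_lt_d9
  have hl3 := n2_log_three
  have hlC1 : 0 ≤ log C1 := Real.log_nonneg (by linarith)
  have hlam21 : 1 ≤ lam ^ 2 := one_le_pow₀ hlam1
  have hlD : log D ≤ (32 * a1 + 64) * (lam ^ 3 * (cB + log C1 + 10)) := by
    rw [hlogD]
    have h1 : (32 * h + 64 : ℝ) ≤ (32 * a1 + 64) * lam ^ 2 := by linarith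
    have h2 : lR ≤ lam * (cB + log C1 + 10) := by
      have h3 : 0 ≤ cB + log C1 := by linarith
      have h4 : 1 * (cB + log C1) ≤ lam * (cB + log C1) := mul_le_mul_of_nonneg_right hlam1 h3
      linarith
    calc (32 * h + 64 : ℝ) * lR ≤ ((32 * a1 + 64) * lam ^ 2) * (lam * (cB + log C1 + 10)) :=
          mul_le_mul h1 h2 hlR0 (by positivity)
      _ = (32 * a1 + 64) * (lam ^ 3 * (cB + log C1 + 10)) := by ring
  have hlCm : log Cm ≤ log 3 + 2 * log t + 2 * log D := by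
    have h1 := Real.log_le_log hCm0 hCm2
    rw [Real.log_mul (by positivity) (by positivity),
      Real.log_mul (x := (3 : ℝ)) (by norm_num) (by positivity), Real.log_pow,
      Real.log_mul hD0.ne' hD0.ne'] at h1
    push_cast at h1
    linarith
  set W := t * Cm * V * E with hWd
  have hW0 : 0 < W := by rw [hWd]; positivity
  have hlW : log W = log t + log Cm + log V + log E := by
    rw [hWd, Real.log_mul (by positivity) (by positivity),
      Real.log_mul (by positivity) (by positivity), Real.log_mul (by positivity) (by positivity)]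
  have hlBb : log Bb ≤ log 5 + log W := by
    rw [← Real.log_mul (by norm_num) (by positivity)]
    exact Real.log_le_log hBb0 hBb
  have htCm : 1 ≤ t * Cm := one_le_mul_of_one_le_of_one_le ht hCm1
  have hVE1 : 1 ≤ V * E := one_le_mul_of_one_le_of_one_le hV1 hE1
  have hWe : W = (t * Cm) * (V * E) := by rw [hWd]; ring
  have hW1 : 1 ≤ W := by rw [hWe]; exact one_le_mul_of_one_le_of_one_le htCm hVE1
  have hVE : V * E ≤ W := by
    rw [hWe]
    calc V * E = 1 * (V * E) := (one_mul _).symm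
      _ ≤ (t * Cm) * (V * E) := mul_le_mul_of_nonneg_right htCm (by linarith)
  have hl1W : log (1 + (t * Cm * (V * E) + V * E)) ≤ log 3 + log W := by
    rw [← Real.log_mul (by norm_num) (by positivity)]
    apply Real.log_le_log (by positivity)
    rw [← hWe]
    linarith
  have hl5 : log (5 : ℝ) ≤ 4 := (Real.log_le_sub_one_of_pos (by norm_num)).trans (by norm_num)
  have hlam13 : lam ≤ lam ^ 3 := by
    calc lam = lam ^ 1 := (pow_one lam).symm
      _ ≤ lam ^ 3 := pow_le_pow_right₀ hlam1 (by norm_num)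
  have hlam31 : 1 ≤ lam ^ 3 := one_le_pow₀ hlam1
  have hsum : log Bb + log (1 + (t * Cm * (V * E) + V * E)) ≤ lam ^ 3 * C1 := by
    have e1 : lam ^ 3 * (16 + 4 * (32 * a1 + 64) * (cB + 10) +
        4 * (32 * a1 + 64) * log C1) = 16 * lam ^ 3 +
        4 * ((32 * a1 + 64) * (lam ^ 3 * (cB + log C1 + 10))) := by
      ring
    have h0 := mul_le_mul_of_nonneg_left hC1 (by positivity : 0 ≤ lam ^ 3)
    rw [e1] at h0
    have h1 : log Bb + log (1 + (t * Cm * (V * E) + V * E)) ≤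
        log 5 + log 3 + 2 * (3 * log t + log 3 + 2 * log D + log V + log E) := by
      linarith
    have h2 : log 5 + log 3 + 2 * (3 * log t + log 3 + 2 * log D + log V + log E) ≤
        4 + 12 * lam + 4 * log D := by
      linarith
    linarith
  have hl23 : lam ^ 3 ≤ lam ^ 6 := pow_le_pow_right₀ hlam1 (by norm_num)
  calc log Bb + log (1 + (t * Cm * (V * E) + V * E)) ≤ lam ^ 3 * C1 := hsum
    _ ≤ lam ^ 6 * C1 := mul_le_mul_of_nonneg_right hl23 (by linarith)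
    _ = C1 * lam ^ 6 := by ring
    _ ≤ Yr := hY

/-- the final implication -/
lemma n2_impl (X A a2 a3 D lR Ks I0r : ℝ) (y j k V E Cm g I t h u i C : ℕ) (hX : 1 ≤ X)
    (hA : 1 ≤ A) (hAlam : A ≤ 1 + log X) (hy : 3 ≤ y) (hylam : log y ≤ A * (1 + log X))
    (hI0 : 1 ≤ I0r) (hI : (I : ℝ) ≤ I0r * A) (hg : g = 2 * I)
    (ha2 : a2 = 64 * (2 * I0r + 1) + 64) (ha3 : a3 = 6 + 12 * I0r)
    (hCc : 2 * (a3 + 13 + 80 * a2) ≤ (C : ℝ)) (hCe : (14 : ℝ) ≤ (C : ℝ))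
    (hV1 : 1 ≤ V) (hV : (V : ℝ) ≤ 3 * X) (hE1 : 1 ≤ E) (hE : (E : ℝ) ≤ 2 * (1 + log X) ^ 2)
    (ht : t = 2 * (j + 1)) (hh : h = t * (g + 1)) (htlam : (t : ℝ) ≤ 2 * (1 + log X))
    (hD : 1 ≤ D) (hlogD : log D = (32 * h + 64) * lR) (hlR4 : 4 ≤ lR)
    (hlR : lR ≤ 10 * log (C * (1 + log X)))
    (hCm1 : 1 ≤ (Cm : ℝ)) (hCm2 : (Cm : ℝ) ≤ 3 * (t : ℝ) ^ 2 * (D * D))
    (hKs : Ks = 4 * (t * Cm * D))
    (hu : (u : ℝ) ≤ 1 + 2 * (t * (g + I + 1) * (1 + log (V * E) / log D)))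
    (hi : 2 ^ i ≤ 2 * k + 1)
    (hmain : X ≤ 2 ^ (2 * j + u) * (k * log y + (2 + D * Ks) ^ i *
            (k * ((k + 1) * (X ^ (1 / 4 : ℝ) * log y) + 2 * log y + log V + 2)) + log (4 * X))) :
    X ≤ (C * (1 + log X)) ^ (C * (A * ((j : ℝ) + 1) * (1 + log k))) := by
  have hlX : 0 ≤ log X := Real.log_nonneg hX
  have hX0 : 0 < X := by linarith
  have hA0 : 0 < A := by linarith
  have hj0 : (0 : ℝ) ≤ j := Nat.cast_nonneg _
  have hIr0 : (0 : ℝ) ≤ I := Nat.cast_nonneg _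
  have ha20 : 0 ≤ a2 := by rw [ha2]; positivity
  have ha30 : 0 ≤ a3 := by rw [ha3]; positivity
  have hlam1 : 1 ≤ 1 + log X := by linarith
  have hlam0 : 0 < 1 + log X := by linarith
  have hC0 : (0 : ℝ) < C := by linarith
  have hC4 : 4 ≤ C := by
    have : (4 : ℝ) ≤ C := by linarith
    exact_mod_cast this
  have ht0 : (t : ℝ) = 2 * (j + 1) := by rw [ht]; push_cast; ring
  have ht1 : 1 ≤ (t : ℝ) := by rw [ht0]; linarith
  have htpos : 0 < (t : ℝ) := by linarith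
  have hgr : (g : ℝ) = 2 * I := by rw [hg]; push_cast; ring
  have hh0 : (h : ℝ) = t * (g + 1) := by rw [hh]; push_cast; ring
  have hD0 : 0 < D := by linarith
  have hVr : (1 : ℝ) ≤ V := by exact_mod_cast hV1
  have hEr : (1 : ℝ) ≤ E := by exact_mod_cast hE1
  have hy3 : (3 : ℝ) ≤ y := by exact_mod_cast hy
  have hly0 : 0 ≤ log (y : ℝ) := Real.log_nonneg (by linarith)
  obtain ⟨Lc, hLc⟩ : ∃ Lc, Lc = log (C * (1 + log X)) := ⟨_, rfl⟩
  have hCl : (C : ℝ) * 1 ≤ C * (1 + log X) := mul_le_mul_of_nonneg_left hlam1 hC0.le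
  have hLc14 : log 14 ≤ Lc := by
    rw [hLc]
    apply Real.log_le_log (by norm_num)
    linarith
  have hLc1 : 1 ≤ Lc := by
    have h1 : Real.exp 1 < 2.7182818286 := Real.exp_one_lt_d9
    have h2 : 1 ≤ log (14 : ℝ) := by
      rw [Real.le_log_iff_exp_le (by norm_num)]
      linarith
    linarith
  have hLct : log (t : ℝ) ≤ Lc := by
    rw [hLc]
    apply Real.log_le_log htpos
    refine htlam.trans ?_
    exact mul_le_mul_of_nonneg_right (by linarith) hlam0.le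
  have hj1 : (1 : ℝ) ≤ j + 1 := by linarith
  have hAj1 : (1 : ℝ) ≤ A * (j + 1) := one_le_mul_of_one_le_of_one_le hA hj1
  have hg1 : (g + 1 : ℝ) ≤ (2 * I0r + 1) * A := by
    rw [hgr]
    have : (2 * I0r + 1) * A = 2 * (I0r * A) + A := by ring
    linarith
  have hlD : log D ≤ 10 * a2 * (A * (j + 1) * Lc) := by
    rw [hlogD]
    have h1 : (32 * h + 64 : ℝ) ≤ a2 * (A * (j + 1)) := by
      have e : a2 * (A * (j + 1)) = 64 * (j + 1) * ((2 * I0r + 1) * A) + 64 * (A * (j + 1)) := by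
        rw [ha2]; ring
      have e2 : (32 * h : ℝ) = 64 * (j + 1) * (g + 1) := by rw [hh0, ht0]; ring
      have h3 : 64 * ((j : ℝ) + 1) * (g + 1) ≤ 64 * (j + 1) * ((2 * I0r + 1) * A) :=
        mul_le_mul_of_nonneg_left hg1 (by positivity)
      rw [e, e2]
      linarith
    have h3 : 0 ≤ lR := by linarith
    rw [← hLc] at hlR
    calc (32 * h + 64 : ℝ) * lR ≤ (a2 * (A * (j + 1))) * (10 * Lc) :=
          mul_le_mul h1 hlR h3 (by positivity)
      _ = 10 * a2 * (A * (j + 1) * Lc) := by ring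
  have hlDge : 128 * (t * (g + 1) : ℝ) ≤ log D := by
    rw [hlogD, ← hh0]
    have h0 : (0 : ℝ) ≤ h := Nat.cast_nonneg _
    have h1 : (32 * h + 64 : ℝ) * 4 ≤ (32 * h + 64 : ℝ) * lR :=
      mul_le_mul_of_nonneg_left hlR4 (by positivity)
    linarith
  -- S
  have hCm0 : (0 : ℝ) < Cm := by linarith
  have hKs1 : 1 ≤ Ks := by
    have h1 : 1 ≤ (t * Cm : ℝ) := one_le_mul_of_one_le_of_one_le ht1 hCm1
    have h2 : 1 ≤ (t * Cm * D : ℝ) := one_le_mul_of_one_le_of_one_le h1 hD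
    linarith
  obtain ⟨S, hS⟩ : ∃ S, S = 2 + D * Ks := ⟨_, rfl⟩
  have hDKs : 1 ≤ D * Ks := one_le_mul_of_one_le_of_one_le hD hKs1
  have hS1 : 1 ≤ S := by linarith
  have hSle : S ≤ 14 * ((t : ℝ) ^ 3 * D ^ 4) := by
    have h1 : D * Ks ≤ 12 * ((t : ℝ) ^ 3 * D ^ 4) := by
      have e1 : D * Ks = (4 * t * D ^ 2) * Cm := by rw [hKs]; ring
      have e2 : 12 * ((t : ℝ) ^ 3 * D ^ 4) = (4 * t * D ^ 2) * (3 * (t : ℝ) ^ 2 * (D * D)) := by
        ring
      rw [e1, e2]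
      exact mul_le_mul_of_nonneg_left hCm2 (by positivity)
    have h2 : 1 ≤ (t : ℝ) ^ 3 * D ^ 4 :=
      one_le_mul_of_one_le_of_one_le (one_le_pow₀ ht1) (one_le_pow₀ hD)
    linarith
  have hlS : log S ≤ (4 + 40 * a2) * (A * (j + 1) * Lc) := by
    have h1 := Real.log_le_log (by linarith) hSle
    rw [Real.log_mul (by norm_num) (by positivity), Real.log_mul (by positivity) (by positivity),
      Real.log_pow, Real.log_pow] at h1
    push_cast at h1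
    have h2 : 1 * Lc ≤ A * (j + 1) * Lc := mul_le_mul_of_nonneg_right hAj1 (by linarith)
    linarith
  have hVE1 : (1 : ℝ) ≤ V * E := one_le_mul_of_one_le_of_one_le hVr hEr
  have hlVE : log (V * E : ℝ) ≤ log X + 2 * Lc := by
    have e : 2 * Lc = log ((C * (1 + log X)) ^ 2) := by
      rw [Real.log_pow, hLc]; push_cast; ring
    have hpos : 0 < (C * (1 + log X)) ^ 2 := by positivity
    rw [e, ← Real.log_mul hX0.ne' hpos.ne']
    apply Real.log_le_log (by linarith)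
    calc (V * E : ℝ) ≤ (3 * X) * (2 * (1 + log X) ^ 2) :=
          mul_le_mul hV hE (by linarith) (by linarith)
      _ = X * (6 * (1 + log X) ^ 2) := by ring
      _ ≤ X * ((C : ℝ) ^ 2 * (1 + log X) ^ 2) := by
          apply mul_le_mul_of_nonneg_left _ hX0.le
          apply mul_le_mul_of_nonneg_right _ (by positivity)
          have := pow_le_pow_left₀ (by norm_num : (0 : ℝ) ≤ 14) hCe 2
          linarith
      _ = X * (C * (1 + log X)) ^ 2 := by ring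
  have hlVE0 : 0 ≤ log (V * E : ℝ) := Real.log_nonneg hVE1
  have huw := n2_u g I j t u (log (V * E : ℝ)) (log D) hg ht hlVE0 hlDge hu
  have hZ : 1 ≤ X ^ (1 / 4 : ℝ) := Real.one_le_rpow hX (by norm_num)
  have hbr := n2_bracket X A (X ^ (1 / 4 : ℝ)) (S ^ i) (log y) k V hX hly0 hylam hA hV1 hV hZ
    (one_le_pow₀ hS1)
  have hmain2 : X ≤ 2 ^ (2 * j + u) * (S ^ i * X ^ (1 / 4 : ℝ) *
      ((4 * A + 6) * ((k : ℝ) + 1) ^ 2 * (1 + log X))) := by
    rw [← hS] at hmain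
    refine hmain.trans ?_
    exact mul_le_mul_of_nonneg_left hbr (by positivity)
  refine n2_final X A Lc a2 a3 S j k i (2 * j + u) C hX hA hAlam hLc hLc1 hC4 ha20 ha30 hCc hS1
    hlS hi ?_ hmain2
  push_cast
  have h3 : (6 + 12 * (I : ℝ)) * (j + 1) ≤ a3 * (A * (j + 1)) := by
    have h4 : 6 + 12 * (I : ℝ) ≤ a3 * A := by
      have : a3 * A = 6 * A + 12 * (I0r * A) := by rw [ha3]; ring
      linarith
    calc (6 + 12 * (I : ℝ)) * (j + 1) ≤ a3 * A * (j + 1) :=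
          mul_le_mul_of_nonneg_right h4 (by linarith)
      _ = a3 * (A * (j + 1)) := by ring
  linarith

/-- NUMBERS.  `λ = 1 + log X`, `E = ⌈log y⌉`, `Y = ⌈C1 λ^6⌉` (`C1` large), `D = DD h E Y`, `ρ = D`,
`Cm = ⌈2 t^2 D^2⌉`, `Bb = ⌈3 t Cm V E + 1⌉`, `Ks = 4 t Cm D`. -/
theorem numbers2 (I0 : ℕ) (hI0 : 1 ≤ I0) :
    ∃ C : ℕ, 1 ≤ C ∧ ∀ (X A : ℝ) (y j k V t h g I : ℕ), 1 ≤ X → 1 ≤ A → A ≤ 1 + log X →
      3 ≤ y → log y ≤ A * (1 + log X) → (j : ℝ) + 1 ≤ 1 + log X → (k : ℝ) ≤ X → 1 ≤ V →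
      (V : ℝ) ≤ 3 * X → 1 ≤ I → (I : ℝ) ≤ I0 * A → g = 2 * I → t = 2 * (j + 1) →
      h = t * (g + 1) →
      ∃ (E Y Cm Bb : ℕ) (ρ Ks : ℝ), 1 ≤ E ∧ log y ≤ E ∧ (E : ℝ) ≤ log y + 1 ∧ 1 ≤ Y ∧ 1 < ρ ∧
        1 ≤ Ks ∧ 2 * (t : ℝ) ^ 2 * DD h E Y * ρ ≤ Cm ∧ 3 * (t * Cm * V * E : ℝ) + 1 ≤ Bb ∧
        log (Bb : ℝ) + log (1 + (t * Cm * (V * E) + V * E)) ≤ Y ∧
        3 * (t * Cm * DD h E Y) < Ks ∧
        ∀ u i : ℕ, (u : ℝ) ≤ 1 + 2 * (t * (g + I + 1) * (1 + log (V * E) / log ρ)) →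
          2 ^ i ≤ 2 * k + 1 →
          X ≤ 2 ^ (2 * j + u) * (k * log y + (2 + ρ * Ks) ^ i *
            (k * ((k + 1) * (X ^ (1 / 4 : ℝ) * log y) + 2 * log y + log V + 2)) + log (4 * X)) →
          X ≤ (C * (1 + log X)) ^ (C * (A * ((j : ℝ) + 1) * (1 + log k))) := by
  have hI0r : (1 : ℝ) ≤ I0 := by exact_mod_cast hI0
  -- constants
  obtain ⟨a1, ha1⟩ : ∃ a1 : ℝ, a1 = 2 * (2 * (I0 : ℝ) + 1) := ⟨_, rfl⟩
  have ha11 : 2 ≤ a1 := by linarith
  obtain ⟨a2, ha2⟩ : ∃ a2 : ℝ, a2 = 64 * (2 * (I0 : ℝ) + 1) + 64 := ⟨_, rfl⟩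
  have ha20 : 0 ≤ a2 := by rw [ha2]; positivity
  obtain ⟨a3, ha3⟩ : ∃ a3 : ℝ, a3 = 6 + 12 * (I0 : ℝ) := ⟨_, rfl⟩
  have ha30 : 0 ≤ a3 := by rw [ha3]; positivity
  have hcB0 : 0 ≤ log (400 * a1) := Real.log_nonneg (by linarith)
  obtain ⟨cB, hcB⟩ : ∃ cB : ℝ, cB = log (400 * a1) := ⟨_, rfl⟩
  rw [← hcB] at hcB0
  obtain ⟨C1, hC13, hC1⟩ := n2_exists_C1 (16 + 4 * (32 * a1 + 64) * (cB + 10))
    (4 * (32 * a1 + 64)) (by positivity) (by positivity)
  have hC10 : 0 < C1 := by linarith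
  obtain ⟨C, hC⟩ := exists_nat_ge (400 * a1 * C1 + 2 * (a3 + 13 + 80 * a2) + 14)
  have hp1 : 0 ≤ 400 * a1 * C1 := by positivity
  have hp2 : 0 ≤ 2 * (a3 + 13 + 80 * a2) := by positivity
  have hCa : 400 * a1 * C1 ≤ (C : ℝ) := by linarith
  have hCc : 2 * (a3 + 13 + 80 * a2) ≤ (C : ℝ) := by linarith
  have hCe : (14 : ℝ) ≤ (C : ℝ) := by linarith
  have hCnat : 1 ≤ C := by
    have : (1 : ℝ) ≤ C := by linarith
    exact_mod_cast this
  refine ⟨C, hCnat, ?_⟩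
  intro X A y j k V t h g I hX hA hAlam hy hylam hj hk hV1 hV hI1 hI hg ht hh
  have hX0 : 0 < X := by linarith
  have hlX : 0 ≤ log X := Real.log_nonneg hX
  obtain ⟨lam, hlam⟩ : ∃ lam : ℝ, lam = 1 + log X := ⟨_, rfl⟩
  have hlam1 : 1 ≤ lam := by linarith
  have hlam0 : 0 < lam := by linarith
  have hlam21 : 1 ≤ lam ^ 2 := one_le_pow₀ hlam1
  have hA0 : 0 < A := by linarith
  have hAl : A ≤ lam := by rw [hlam]; exact hAlam
  have hj0 : (0 : ℝ) ≤ j := Nat.cast_nonneg _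
  have ht0 : (t : ℝ) = 2 * (j + 1) := by rw [ht]; push_cast; ring
  have hgr : (g : ℝ) = 2 * I := by rw [hg]; push_cast; ring
  have hh0 : (h : ℝ) = t * (g + 1) := by rw [hh]; push_cast; ring
  have ht1 : 2 ≤ (t : ℝ) := by rw [ht0]; linarith
  have ht1' : 1 ≤ (t : ℝ) := by linarith
  have htlam : (t : ℝ) ≤ 2 * lam := by rw [ht0]; linarith
  have hg1 : (g + 1 : ℝ) ≤ (2 * I0 + 1) * lam := by
    rw [hgr]
    have h1 : (I0 : ℝ) * A ≤ I0 * lam := mul_le_mul_of_nonneg_left hAl (by linarith)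
    have : (2 * (I0 : ℝ) + 1) * lam = 2 * (I0 * lam) + lam := by ring
    linarith
  have hhlam : (h : ℝ) ≤ a1 * lam ^ 2 := by
    rw [hh0, ha1]
    have hg0 : (0 : ℝ) ≤ g := Nat.cast_nonneg _
    calc (t * (g + 1) : ℝ) ≤ (2 * lam) * ((2 * I0 + 1) * lam) :=
          mul_le_mul htlam hg1 (by linarith) (by linarith)
      _ = 2 * (2 * (I0 : ℝ) + 1) * lam ^ 2 := by ring
  have htn : 1 ≤ t := by omega
  have hhn : 1 ≤ h := by rw [hh]; exact Nat.mul_pos htn (by omega)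
  have hy3 : (3 : ℝ) ≤ y := by exact_mod_cast hy
  have hly1 : 1 ≤ log (y : ℝ) := by
    rw [Real.le_log_iff_exp_le (by linarith)]
    have := Real.exp_one_lt_d9
    linarith
  -- the parameters
  obtain ⟨E, hE⟩ : ∃ E : ℕ, E = ⌈log (y : ℝ)⌉₊ := ⟨_, rfl⟩
  have hE1 : log (y : ℝ) ≤ E := by rw [hE]; exact Nat.le_ceil _
  have hE2 : (E : ℝ) ≤ log y + 1 := by rw [hE]; exact (Nat.ceil_lt_add_one (by linarith)).le
  have hEr : (1 : ℝ) ≤ E := hly1.trans hE1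
  have hEn : 1 ≤ E := by exact_mod_cast hEr
  have hElam : (E : ℝ) ≤ 2 * lam ^ 2 := by
    rw [← hlam] at hylam
    have h1 : A * lam ≤ lam * lam := mul_le_mul_of_nonneg_right hAl hlam0.le
    have h2 : lam * lam = lam ^ 2 := by ring
    linarith
  obtain ⟨Y, hY⟩ : ∃ Y : ℕ, Y = ⌈C1 * lam ^ 6⌉₊ := ⟨_, rfl⟩
  have hlam6 : 1 ≤ lam ^ 6 := one_le_pow₀ hlam1
  have hY1 : C1 * lam ^ 6 ≤ Y := by rw [hY]; exact Nat.le_ceil _
  have hYge : 1 ≤ C1 * lam ^ 6 := one_le_mul_of_one_le_of_one_le (by linarith) hlam6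
  have hY2 : (Y : ℝ) ≤ 2 * C1 * lam ^ 6 := by
    have := (Nat.ceil_lt_add_one (show 0 ≤ C1 * lam ^ 6 by positivity)).le
    rw [← hY] at this
    linarith
  have hYn : 1 ≤ Y := by
    have : (1 : ℝ) ≤ Y := hYge.trans hY1
    exact_mod_cast this
  obtain ⟨hR1, hR2, hR3⟩ := n2_logR h E Y lam a1 C1 C hlam1 (by linarith) (by linarith)
    hhn hEn hYn hhlam hElam hY2 hCa
  rw [← hcB] at hR2
  have hD100 : 100 ≤ DD h E Y := DD_ge hhn hEn hYn
  have hlogD : log (DD h E Y) = (32 * h + 64) * log (pR h E Y : ℝ) := by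
    unfold DD
    rw [Real.log_pow]
    push_cast
    ring
  obtain ⟨D, hDdef⟩ : ∃ D : ℝ, D = DD h E Y := ⟨_, rfl⟩
  rw [← hDdef] at hD100 hlogD
  have hD0 : 0 < D := by linarith
  have hD1 : 1 ≤ D := by linarith
  obtain ⟨Cm, hCm⟩ : ∃ Cm : ℕ, Cm = ⌈2 * (t : ℝ) ^ 2 * D * D⌉₊ := ⟨_, rfl⟩
  have hCm1 : 2 * (t : ℝ) ^ 2 * D * D ≤ Cm := by rw [hCm]; exact Nat.le_ceil _
  have ht2 : 1 ≤ (t : ℝ) ^ 2 := one_le_pow₀ ht1'
  have hDD1 : 1 ≤ D * D := one_le_mul_of_one_le_of_one_le hD1 hD1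
  have ht2D : 1 ≤ (t : ℝ) ^ 2 * (D * D) := one_le_mul_of_one_le_of_one_le ht2 hDD1
  have hCm2 : (Cm : ℝ) ≤ 3 * (t : ℝ) ^ 2 * (D * D) := by
    have := (Nat.ceil_lt_add_one (show 0 ≤ 2 * (t : ℝ) ^ 2 * D * D by positivity)).le
    rw [← hCm] at this
    linarith
  have hCmr : 1 ≤ (Cm : ℝ) := by linarith
  have hVr : (1 : ℝ) ≤ V := by exact_mod_cast hV1
  have hWpos : 1 ≤ (t * Cm * V * E : ℝ) :=
    one_le_mul_of_one_le_of_one_le (one_le_mul_of_one_le_of_one_le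
      (one_le_mul_of_one_le_of_one_le ht1' hCmr) hVr) hEr
  obtain ⟨Bb, hBb⟩ : ∃ Bb : ℕ, Bb = ⌈3 * (t * Cm * V * E : ℝ) + 1⌉₊ := ⟨_, rfl⟩
  have hBb1 : 3 * (t * Cm * V * E : ℝ) + 1 ≤ Bb := by rw [hBb]; exact Nat.le_ceil _
  have hBb2 : (Bb : ℝ) ≤ 5 * (t * Cm * V * E : ℝ) := by
    have := (Nat.ceil_lt_add_one (show 0 ≤ 3 * (t * Cm * V * E : ℝ) + 1 by positivity)).le
    rw [← hBb] at this
    linarith
  have hBbpos : (0 : ℝ) < Bb := by linarith
  have htCmD : 1 ≤ (t * Cm * D : ℝ) :=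
    one_le_mul_of_one_le_of_one_le (one_le_mul_of_one_le_of_one_le ht1' hCmr) hD1
  refine ⟨E, Y, Cm, Bb, D, 4 * (t * Cm * D), hEn, hE1, hE2, hYn, by linarith, by linarith,
    by rw [← hDdef]; exact hCm1, hBb1, ?_, by rw [← hDdef]; linarith, ?_⟩
  · exact n2_cond9 X C1 a1 cB lam D (log (pR h E Y : ℝ)) h t V E Cm Bb Y hlam hX hC13 ha11 hcB0
      hC1 hlogD (by linarith) hR2 hhlam hD1 ht1' htlam hVr hV hEr hElam hCmr hCm2 hBbpos hBb2 hY1
  · intro u i hu hi hmain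
    rw [hlam] at hElam hR1 htlam
    exact n2_impl X A a2 a3 D (log (pR h E Y : ℝ)) (4 * (t * Cm * D)) I0 y j k V E Cm g I t h
      u i C hX hA hAlam hy hylam hI0r hI hg ha2 ha3 hCc hCe hV1 hV hEn hElam ht hh htlam
      hD1 hlogD hR3 hR1 hCmr hCm2 rfl hu hi hmain

end Pool.Agent.Lib.MP_f02ea4_nt.AE
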