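import Mathlib
import Pool.Agent.Lib.MP_f02ea4_nt.Mg.G020
import Pool.Agent.Lib.MP_f02ea4_nt.Mg.G022
import Pool.Agent.Lib.MP_f02ea4_nt.AE.Numbers2
import Pool.Agent.Lib.MP_f02ea4_nt.Mg.G024

/-! The bound with few primes, assembly. -/

set_option autoImplicit false

namespace Pool.Agent.Lib.MP_f02ea4_nt.AE

open Finset Real
open Pool.Agent.Lib.MP_f02ea4_nt.Sm
open Pool.Agent.Lib.MP_f02ea4_nt.Ml (Lg s_prime s_aa_nonneg HH process basics loglog_ge)

lemma one_le_rhs (C : ℕ) (hC : 1 ≤ C) (lam e : ℝ) (hlam : 1 ≤ lam) (he : 0 ≤ e) :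
    1 ≤ ((C : ℝ) * lam) ^ e := by
  apply Real.one_le_rpow _ he
  have : (1 : ℝ) ≤ C := by exact_mod_cast hC
  nlinarith

lemma clog_facts (k : ℕ) : k ≤ 2 ^ Nat.clog 2 k ∧ 2 ^ Nat.clog 2 k ≤ 2 * k + 1 := by
  refine ⟨Nat.le_pow_clog (by norm_num) k, ?_⟩
  rcases Nat.lt_or_ge 1 k with h | h
  · have h1 := Nat.pow_pred_clog_lt_self (by norm_num : 1 < 2) h
    have h2 : 0 < Nat.clog 2 k := Nat.clog_pos (by norm_num) h
    obtain ⟨m, hm⟩ := Nat.exists_eq_succ_of_ne_zero h2.ne'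
    rw [hm] at h1 ⊢
    simp only [Nat.succ_eq_add_one, Nat.pred_eq_sub_one, Nat.add_sub_cancel] at h1
    rw [Nat.succ_eq_add_one, pow_succ]
    omega
  · have : Nat.clog 2 k = 0 := Nat.clog_of_right_le_one h 2
    rw [this]
    simp

/-- the core: `y ≥ 3` -/
theorem core_bound2 : ∃ C : ℕ, 1 ≤ C ∧ ∀ N y : ℕ, Odd N →
    Nat.Perfect N → 3 ≤ y → log N ≤ (C * (1 + log (log N))) ^
      (C * ((1 + log y / (1 + log (log N))) * (((Lg N y).card : ℝ) + 1) *
        (1 + log ((Vs N y).card : ℝ)))) := by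
  classical
  obtain ⟨X0, hX03, hX0⟩ := heavy_count2
  obtain ⟨C, hC1, hC⟩ := numbers2 17 (by norm_num)
  refine ⟨C + 3 + ⌈X0⌉₊, by omega, ?_⟩
  intro N y hodd hN hy
  obtain ⟨hX1, hlogN, hom, hom1⟩ := basics N hodd hN
  set X : ℝ := log (N : ℝ) with hX
  set j := (Lg N y).card with hj
  set k := (Vs N y).card with hk
  have hyR : (3 : ℝ) ≤ y := by exact_mod_cast hy
  have hy1 : (1 : ℝ) ≤ y := by linarith
  have hlogy0 : 0 ≤ log (y : ℝ) := log_nonneg hy1
  have hlX : 0 ≤ log X := Real.log_nonneg hX1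
  have hlam : 1 ≤ 1 + log X := by linarith
  have hlogk : 0 ≤ log (k : ℝ) := log_natCast_nonneg k
  have hj0 : (0 : ℝ) ≤ j := Nat.cast_nonneg _
  have hC1R : (1 : ℝ) ≤ C := by exact_mod_cast hC1
  set A : ℝ := 1 + log y / (1 + log X) with hA
  have hA1 : 1 ≤ A := by
    have : 0 ≤ log (y : ℝ) / (1 + log X) := by positivity
    linarith
  have hyA : log y ≤ A * (1 + log X) := by
    rw [hA, add_mul, div_mul_cancel₀ _ (by linarith : (1 : ℝ) + log X ≠ 0)]
    linarith
  set CC : ℕ := C + 3 + ⌈X0⌉₊ with hCC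
  have hCCR : (CC : ℝ) = (C : ℝ) + 3 + (⌈X0⌉₊ : ℝ) := by rw [hCC]; push_cast; ring
  have hX0c : X0 ≤ (⌈X0⌉₊ : ℝ) := Nat.le_ceil X0
  have hCC3 : (3 : ℝ) ≤ CC := by rw [hCCR]; linarith
  have he0 : 0 ≤ (CC : ℝ) * (A * ((j : ℝ) + 1) * (1 + log (k : ℝ))) := by positivity
  have hAj : A ≤ A * ((j : ℝ) + 1) * (1 + log (k : ℝ)) := by
    have h1 : 1 ≤ ((j : ℝ) + 1) * (1 + log (k : ℝ)) := by nlinarith
    nlinarith
  have hjA : (j : ℝ) + 1 ≤ A * ((j : ℝ) + 1) * (1 + log (k : ℝ)) := by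
    have h1 : 1 ≤ A * (1 + log (k : ℝ)) := by nlinarith
    nlinarith
  have hCCx : ∀ x : ℝ, 0 ≤ x → x ≤ CC * x := by
    intro x hx
    nlinarith
  have hbase : exp 1 ≤ (CC : ℝ) * (1 + log X) := by
    have h3 := Real.exp_one_lt_d9
    nlinarith
  -- exponential bound
  have hexp : ∀ x : ℝ, 1 + log X ≤ x → x ≤ A * ((j : ℝ) + 1) * (1 + log (k : ℝ)) →
      X ≤ ((CC : ℝ) * (1 + log X)) ^ ((CC : ℝ) * (A * ((j : ℝ) + 1) * (1 + log (k : ℝ)))) := by
    intro x hx1 hx2
    have hx0 : 0 ≤ A * ((j : ℝ) + 1) * (1 + log (k : ℝ)) := by positivity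
    calc X = exp (log X) := (Real.exp_log (by linarith)).symm
      _ ≤ exp (A * ((j : ℝ) + 1) * (1 + log (k : ℝ))) := exp_le_exp.2 (by linarith)
      _ = exp 1 ^ (A * ((j : ℝ) + 1) * (1 + log (k : ℝ))) := by rw [← Real.exp_mul, one_mul]
      _ ≤ exp 1 ^ ((CC : ℝ) * (A * ((j : ℝ) + 1) * (1 + log (k : ℝ)))) := by
          apply Real.rpow_le_rpow_of_exponent_le _ (hCCx _ hx0)
          have := Real.add_one_le_exp (1 : ℝ)
          linarith
      _ ≤ _ := Real.rpow_le_rpow (exp_pos 1).le hbase he0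
  by_cases hc0 : X < X0
  · have h1 : (CC : ℝ) ≤ (CC : ℝ) * (1 + log X) := by nlinarith
    have h2 : (1 : ℝ) ≤ (CC : ℝ) * (A * ((j : ℝ) + 1) * (1 + log (k : ℝ))) := by
      have := hCCx _ (by positivity : 0 ≤ A * ((j : ℝ) + 1) * (1 + log (k : ℝ)))
      linarith
    calc X ≤ (CC : ℝ) := by rw [hCCR]; linarith
      _ ≤ (CC : ℝ) * (1 + log X) := h1
      _ = ((CC : ℝ) * (1 + log X)) ^ (1 : ℝ) := (Real.rpow_one _).symm
      _ ≤ _ := Real.rpow_le_rpow_of_exponent_le (by linarith) h2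
  rw [not_lt] at hc0
  by_cases hc1 : 1 + log X < A
  · exact hexp A hc1.le hAj
  rw [not_lt] at hc1
  by_cases hc2 : 1 + log X < (j : ℝ) + 1
  · exact hexp _ hc2.le hjA
  rw [not_lt] at hc2
  -- the main case
  set V : ℕ := Nat.log 2 N + 1 with hV
  have hVpos : 1 ≤ V := by omega
  have hkX : (k : ℝ) ≤ X := by
    refine le_trans ?_ hom
    exact_mod_cast Finset.card_filter_le _ _
  set t : ℕ := 2 * (j + 1) with ht
  set I : ℕ := ⌊17 * A⌋₊ with hIdef
  have hI1 : 1 ≤ I := by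
    apply Nat.le_floor
    push_cast
    linarith
  have hIle : (I : ℝ) ≤ 17 * A := Nat.floor_le (by linarith)
  set g : ℕ := 2 * I with hg
  set T : ℝ := X ^ (1 / 4 : ℝ) * log y with hT
  have hT0 : 0 ≤ T := by positivity
  have hI : ∀ r ∈ Vs N y, ((Vs N y).filter (fun q => hv N T q r)).card ≤ I := by
    intro r hr
    rw [Finset.mem_filter] at hr
    apply Nat.le_floor
    refine hX0 X A y r _ hc0 hA1 hc1 hyA (s_prime hr.1) hr.2 ?_ ?_
    · intro q hq
      rw [Finset.mem_filter, Finset.mem_filter] at hq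
      exact ⟨s_prime hq.1.1, hq.1.2⟩
    · intro q hq
      rw [Finset.mem_filter, Finset.mem_filter] at hq
      have h1 : T < bb N q r := hq.2
      have h2 : bb N q r ≤ ((q ^ (r - 1) - 1).factorization r : ℝ) * log r := by
        unfold bb
        split_ifs
        · exact le_rfl
        · exact mul_nonneg (Nat.cast_nonneg _) (log_natCast_nonneg r)
      exact h1.trans_le h2
  obtain ⟨E, Y, Cm, Bb, ρ, Ks, hE1, hyE, hE2, hY1, hρ, hKs1, hCm, hBb, hY, hKs, hfin⟩ :=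
    hC X A y j k V t (t * (g + 1)) g I hX1 hA1 hc1 hy hyA hc2 hkX hVpos hlogN hI1
      (by push_cast; exact hIle) rfl ht rfl
  set l : ℝ := ((k : ℝ) + 1) * T + 2 * log y + log V + 2 with hl
  have hlogy : 1 ≤ log (y : ℝ) := d15_log3 hyR
  have hV1 : (1 : ℝ) ≤ V := by exact_mod_cast hVpos
  have hlogV : 0 ≤ log (V : ℝ) := Real.log_nonneg hV1
  have hE1R : (1 : ℝ) ≤ E := by exact_mod_cast hE1
  have hl0 : 0 < l := by
    rw [hl]
    have : 0 ≤ ((k : ℝ) + 1) * T := by positivity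
    linarith
  have hEL := el_apply N y T hT0 hodd hN hy g t E Y Cm Bb V ρ Ks l hV ht hE1 hyE hE2 hY1 hKs1
    hCm hBb hY hKs le_rfl
  have hz1 : ∀ q ∈ Vs N y, 1 ≤ (nn N q : ℝ) * log q := by
    intro q hq
    have hqm := Finset.mem_filter.1 hq
    have h1 := log_ge_one hodd hqm.1
    have h2 : (1 : ℝ) ≤ nn N q := by exact_mod_cast (by unfold nn; omega : 1 ≤ nn N q)
    nlinarith
  have hzV : ∀ q ∈ Vs N y, (nn N q : ℝ) * log q ≤ V * E := by
    intro q hq
    have hqm := Finset.mem_filter.1 hq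
    have h1 : (nn N q : ℝ) ≤ V := by
      rw [hV]
      exact_mod_cast nn_le_log N q
    have h2 : log (q : ℝ) ≤ E := by
      refine le_trans ?_ hyE
      exact Real.log_le_log (by exact_mod_cast (s_prime hqm.1).pos) (by exact_mod_cast hqm.2)
    exact mul_le_mul h1 h2 (log_natCast_nonneg q) (by positivity)
  have hVE : (1 : ℝ) ≤ (V : ℝ) * E := by nlinarith
  obtain ⟨U, hUV, hUc, hUm⟩ := levels (Vs N y) (hv N T) (aa N)
    (fun q => (nn N q : ℝ) * log q) I g t l ρ Ks ((V : ℝ) * E) (fun q _ r _ => s_aa_nonneg N q r)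
    hz1 hzV (fun r hr => col_le N y r hodd hN (Finset.mem_filter.1 hr).1) hI (by omega)
    (by omega) hl0 hρ (by linarith) hVE hEL (Nat.clog 2 k)
  obtain ⟨hk1, hk2⟩ := clog_facts k
  set i := Nat.clog 2 k with hi
  have hUle : (U.card : ℝ) ≤ 1 + 2 * (t * (g + I + 1) * (1 + log (V * E) / log ρ)) := by
    have h1 : (k : ℝ) / 2 ^ i ≤ 1 := by
      rw [div_le_one (by positivity)]
      exact_mod_cast hk1
    have h2 : ((Vs N y).card : ℝ) / 2 ^ i = (k : ℝ) / 2 ^ i := rfl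
    rw [h2] at hUc
    linarith
  have hcards : N.primeFactors.card = k + j := by
    have h1 : (Vs N y).card + (N.primeFactors.filter (fun p => ¬ p ≤ y)).card =
        N.primeFactors.card := Finset.card_filter_add_card_filter_not _
    have h2 : N.primeFactors.filter (fun p => ¬ p ≤ y) = Lg N y := by
      apply Finset.filter_congr
      intro p _
      exact not_le
    rw [h2] at h1
    omega
  have hproc := process N hodd hN (Vs N y) (Vs N y \ U) (Finset.filter_subset _ _)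
    Finset.sdiff_subset (2 * j + U.card) (by
      rw [hcards, Finset.card_sdiff_of_subset hUV]
      have := Finset.card_le_card hUV
      omega)
  have hHH : HH N (Vs N y) (Vs N y \ U) ≤ k * log y + (2 + ρ * Ks) ^ i * (k * l) := by
    unfold HH
    have h1 : ∑ p ∈ Vs N y, log (p : ℝ) ≤ k * log y := by
      rw [hk, ← nsmul_eq_mul]
      apply Finset.sum_le_card_nsmul
      intro p hp
      have hpm := Finset.mem_filter.1 hp
      exact Real.log_le_log (by exact_mod_cast (s_prime hpm.1).pos) (by exact_mod_cast hpm.2)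
    have h2 : 0 ≤ ((Vs N y).card : ℝ) * l := by positivity
    have h3 : ((Vs N y).card : ℝ) * l = k * l := rfl
    rw [h3] at h2 hUm
    linarith
  have hlog4 : log (4 * (N.primeFactors.card : ℝ)) ≤ log (4 * X) := by
    apply Real.log_le_log
    · have : (0 : ℝ) < N.primeFactors.card := by exact_mod_cast hom1
      positivity
    · linarith
  have hmain : X ≤ 2 ^ (2 * j + U.card) * (k * log y + (2 + ρ * Ks) ^ i * (k * l) + log (4 * X)) := by
    refine hproc.trans ?_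
    apply mul_le_mul_of_nonneg_left _ (by positivity)
    linarith
  have hres := hfin U.card i hUle hk2 hmain
  refine hres.trans ?_
  have hCCC : (C : ℝ) ≤ (CC : ℝ) := by rw [hCCR]; linarith
  have hx0 : 0 ≤ A * ((j : ℝ) + 1) * (1 + log (k : ℝ)) := by positivity
  refine (Real.rpow_le_rpow (by positivity)
    (mul_le_mul_of_nonneg_right hCCC (by linarith)) (by positivity)).trans ?_
  apply Real.rpow_le_rpow_of_exponent_le
  · nlinarith
  · exact mul_le_mul_of_nonneg_right hCCC hx0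

end Pool.Agent.Lib.MP_f02ea4_nt.AE
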