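import Mathlib
import Pool.Agent.Lib.MP_f02ea4_nt.Mg.G020
import Pool.Agent.Lib.MP_f02ea4_nt.MK.MkF

/-! Large primes of an odd perfect number: final form with the number `k` of the prime factors
`≤ y`. -/

set_option autoImplicit false

namespace Pool.Agent.Lib.MP_f02ea4_nt.AE

open Finset Real
open Pool.Agent.Lib.MP_f02ea4_nt.Ml

/-- `k = #{p ∣ N : p ≤ y}`, `j = #{p ∣ N : p > y}` -/
theorem k_form (ε : ℝ) (hε : 0 < ε) : ∃ C : ℕ, 1 ≤ C ∧ ∀ N y : ℕ, Odd N → Nat.Perfect N → 2 ≤ y →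
    Real.log N ≤ C * (((N.primeFactors.filter (· ≤ y)).card : ℝ) + 1) * (y : ℝ) ^ (1 + ε) *
      (C * Real.log (Real.log N)) ^ (C * (N.primeFactors.filter (y < ·)).card) := by
  obtain ⟨C, hC, hmain⟩ := main_formK ε hε
  refine ⟨13 * C, by omega, ?_⟩
  intro N y hodd hN hy
  have h1 := hmain N y hodd hN hy
  have h2 := loglog_ge N hodd hN
  have hCR : (1 : ℝ) ≤ (C : ℝ) := by exact_mod_cast hC
  have hll : (1 : ℝ) / 12 ≤ log (log (N : ℝ)) := by linarith
  have hyp : (0 : ℝ) ≤ (y : ℝ) ^ (1 + ε) := rpow_nonneg (Nat.cast_nonneg y) _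
  have hk0 : (0 : ℝ) ≤ ((N.primeFactors.filter (· ≤ y)).card : ℝ) + 1 := by positivity
  have hb0 : (0 : ℝ) ≤ (C : ℝ) * (1 + log (log (N : ℝ))) := by
    apply mul_nonneg <;> linarith
  have hb1 : (C : ℝ) * (1 + log (log (N : ℝ))) ≤ ((13 * C : ℕ) : ℝ) * log (log (N : ℝ)) := by
    push_cast
    have := mul_le_mul_of_nonneg_left h2 (le_trans zero_le_one hCR)
    linarith
  have hb2 : (1 : ℝ) ≤ ((13 * C : ℕ) : ℝ) * log (log (N : ℝ)) := by
    push_cast
    nlinarith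
  have h3 : ((C : ℝ) * (1 + log (log (N : ℝ)))) ^ (C * (Lg N y).card)
      ≤ (((13 * C : ℕ) : ℝ) * log (log (N : ℝ))) ^
        (13 * C * (N.primeFactors.filter (y < ·)).card) := by
    refine le_trans (pow_le_pow_left₀ hb0 hb1 _) ?_
    apply pow_le_pow_right₀ hb2
    have e : (Lg N y).card = (N.primeFactors.filter (y < ·)).card := rfl
    rw [e]
    apply Nat.mul_le_mul_right
    omega
  refine le_trans h1 ?_
  rw [mul_assoc ((13 * C : ℕ) : ℝ) _ ((y : ℝ) ^ (1 + ε))]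
  apply mul_le_mul _ h3 (pow_nonneg hb0 _) (by positivity)
  apply mul_le_mul_of_nonneg_right _ (mul_nonneg hk0 hyp)
  push_cast
  linarith

end Pool.Agent.Lib.MP_f02ea4_nt.AE
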