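import Mathlib
import Pool.Agent.Lib.MP_f02ea4_nt.Mg.G028
import Pool.Agent.Lib.MP_f02ea4_nt.AE.Avg
import Pool.Agent.Lib.MP_f02ea4_nt.AE.KForm
import Pool.Agent.Lib.MP_f02ea4_nt.AE.FinalB

/-! Many large primes, version 2: the uniform bound. -/

set_option autoImplicit false

namespace Pool.Agent.Lib.MP_f02ea4_nt.AE

open Finset Real
open Pool.Agent.Lib.MP_f02ea4_nt.Sm
open Pool.Agent.Lib.MP_f02ea4_nt.Ml (Lg s_prime basics loglog_ge large_X final2 i_loglog_pos)

/-- the uniform bound for `y ≥ 2` with `log log N` -/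
theorem smooth_form2 : ∃ C : ℕ, 1 ≤ C ∧ ∀ N y : ℕ, Odd N →
    Nat.Perfect N → 2 ≤ y → log N ≤ (C * log (log N)) ^
      (C * ((1 + log y / log (log N)) * (((Lg N y).card : ℝ) + 1) *
        (1 + log ((Vs N y).card : ℝ)))) := by
  obtain ⟨C, hC1, hC⟩ := core_bound2
  refine ⟨13 * C, by omega, ?_⟩
  intro N y hodd hN hy
  have hll := loglog_ge N hodd hN
  have hl12 := i_loglog_pos N hodd hN
  obtain ⟨hX1, -, -, -⟩ := basics N hodd hN
  set L : ℝ := log (log (N : ℝ)) with hL
  have hC1R : (1 : ℝ) ≤ C := by exact_mod_cast hC1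
  have hcast : ((13 * C : ℕ) : ℝ) = 13 * C := by push_cast; ring
  have hbase : (C : ℝ) * (1 + L) ≤ ((13 * C : ℕ) : ℝ) * L := by
    rw [hcast]
    have h1 : (C : ℝ) * (1 + L) ≤ C * (13 * L) := mul_le_mul_of_nonneg_left hll (by linarith)
    linarith
  have hb1 : 1 ≤ (C : ℝ) * (1 + L) := by nlinarith
  have hL0 : 0 < L := by linarith
  -- comparison
  have hcomp : ∀ e e' : ℝ, 0 ≤ e → e ≤ 2 * e' →
      ((C : ℝ) * (1 + L)) ^ ((C : ℝ) * e) ≤ (((13 * C : ℕ) : ℝ) * L) ^ (((13 * C : ℕ) : ℝ) * e') := by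
    intro e e' he hee
    refine (Real.rpow_le_rpow_of_exponent_le hb1 ?_).trans
      (Real.rpow_le_rpow (by linarith) hbase (by rw [hcast]; nlinarith))
    rw [hcast]
    nlinarith
  rcases Nat.lt_or_ge 2 y with h3 | h3
  · refine (hC N y hodd hN h3).trans ?_
    apply hcomp
    · have hy0 : 0 ≤ log (y : ℝ) := log_natCast_nonneg _
      have hk0 := log_natCast_nonneg (Vs N y).card
      positivity
    · have hy0 : 0 ≤ log (y : ℝ) := log_natCast_nonneg _
      have hk0 := log_natCast_nonneg (Vs N y).card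
      have h1 : log (y : ℝ) / (1 + L) ≤ log y / L :=
        div_le_div_of_nonneg_left hy0 hL0 (by linarith)
      have h2 : 0 ≤ (((Lg N y).card : ℝ) + 1) * (1 + log ((Vs N y).card : ℝ)) := by positivity
      have h4 : (1 + log (y : ℝ) / (1 + L)) * (((Lg N y).card : ℝ) + 1) *
          (1 + log ((Vs N y).card : ℝ)) ≤ (1 + log (y : ℝ) / L) * (((Lg N y).card : ℝ) + 1) *
          (1 + log ((Vs N y).card : ℝ)) := by
        rw [mul_assoc, mul_assoc]
        exact mul_le_mul_of_nonneg_right (by linarith) h2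
      have h5 : 0 ≤ (1 + log (y : ℝ) / L) * (((Lg N y).card : ℝ) + 1) *
          (1 + log ((Vs N y).card : ℝ)) := by positivity
      linarith
  · have hy2 : y = 2 := by omega
    subst hy2
    refine (hC N 3 hodd hN le_rfl).trans ?_
    have hj : ((Lg N 3).card : ℝ) ≤ (Lg N 2).card := by
      have : Lg N 3 ⊆ Lg N 2 := by
        intro p hp
        rw [Finset.mem_filter] at hp ⊢
        exact ⟨hp.1, by omega⟩
      exact_mod_cast Finset.card_le_card this
    have hk3 : log ((Vs N 3).card : ℝ) = 0 := by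
      have h1 : (Vs N 3).card ≤ 1 := by
        have : Vs N 3 ⊆ {3} := by
          intro p hp
          rw [Finset.mem_filter] at hp
          have h5 := (s_prime hp.1).two_le
          have h6 : p ≠ 2 := by
            rintro rfl
            exact (Nat.not_even_iff_odd.2 hodd)
              (even_iff_two_dvd.2 (Nat.dvd_of_mem_primeFactors hp.1))
          rw [Finset.mem_singleton]
          omega
        simpa using Finset.card_le_card this
      interval_cases h : (Vs N 3).card
      · simp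
      · simp
    have hk0 := log_natCast_nonneg (Vs N 2).card
    have h23 : log ((3 : ℕ) : ℝ) ≤ 2 * log ((2 : ℕ) : ℝ) := by
      have h1 : 2 * log ((2 : ℕ) : ℝ) = log 4 := by
        have h2 : log ((2 : ℝ) ^ 2) = 2 * log 2 := by rw [log_pow]; norm_num
        push_cast
        rw [← h2]
        norm_num
      rw [h1]
      push_cast
      exact Real.log_le_log (by norm_num) (by norm_num)
    have h30 : 0 ≤ log ((3 : ℕ) : ℝ) := log_natCast_nonneg _
    have h20 : 0 ≤ log ((2 : ℕ) : ℝ) := log_natCast_nonneg _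
    apply hcomp
    · rw [hk3]
      positivity
    · rw [hk3, add_zero, mul_one]
      have h1 : log ((3 : ℕ) : ℝ) / (1 + L) ≤ 2 * (log ((2 : ℕ) : ℝ) / L) := by
        calc log ((3 : ℕ) : ℝ) / (1 + L) ≤ log ((3 : ℕ) : ℝ) / L :=
              div_le_div_of_nonneg_left h30 hL0 (by linarith)
          _ ≤ (2 * log ((2 : ℕ) : ℝ)) / L := by
              apply div_le_div_of_nonneg_right h23 hL0.le
          _ = _ := by ring
      have h2 : 0 ≤ log ((2 : ℕ) : ℝ) / L := by positivity
      have h3 : (1 + log ((3 : ℕ) : ℝ) / (1 + L)) * (((Lg N 3).card : ℝ) + 1) ≤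
          (2 * (1 + log ((2 : ℕ) : ℝ) / L)) * (((Lg N 2).card : ℝ) + 1) := by
        apply mul_le_mul (by linarith) (by linarith) (by positivity) (by positivity)
      have h4 : (1 + log ((2 : ℕ) : ℝ) / L) * (((Lg N 2).card : ℝ) + 1) * 1 ≤
          (1 + log ((2 : ℕ) : ℝ) / L) * (((Lg N 2).card : ℝ) + 1) *
            (1 + log ((Vs N 2).card : ℝ)) := by
        apply mul_le_mul_of_nonneg_left (by linarith) (by positivity)
      linarith

/-- the logarithmic form -/
theorem log_form : ∃ C N0 : ℕ, 1 ≤ C ∧ ∀ N y : ℕ, N0 ≤ N → Odd N → Nat.Perfect N → 2 ≤ y →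
    log (log N) ^ 2 ≤ C * ((((Lg N y).card : ℝ) + 1) * (1 + log ((Vs N y).card : ℝ)) *
      (log (log N) + log y)) * log (log (log N)) := by
  obtain ⟨C, hC1, hC⟩ := smooth_form2
  have hC1R : (1 : ℝ) ≤ C := by exact_mod_cast hC1
  obtain ⟨X0, hX01, hX0⟩ := large_X (1 / 4) (log C) (by norm_num)
  refine ⟨2 * C, ⌈exp (max X0 3)⌉₊, by omega, ?_⟩
  intro N y hNN hodd hperf hy
  have h1 : exp (max X0 3) ≤ (N : ℝ) := Nat.ceil_le.1 hNN
  have hN0 : (0 : ℝ) < N := lt_of_lt_of_le (exp_pos _) h1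
  have h2 : max X0 3 ≤ log (N : ℝ) := (le_log_iff_exp_le hN0).2 h1
  set X := log (N : ℝ) with hX
  have h3 : X0 ≤ X := (le_max_left _ _).trans h2
  have h3' : 3 ≤ X := (le_max_right _ _).trans h2
  obtain ⟨-, h6, -⟩ := hX0 X h3
  have hXpos : 0 < X := by linarith
  have hlX1 : 1 ≤ log X := d15_log3 h3'
  have hmain := hC N y hodd hperf hy
  set L := log X with hL
  have hy0 : 0 ≤ log (y : ℝ) := log_natCast_nonneg _
  have hk0 := log_natCast_nonneg (Vs N y).card
  set F : ℝ := (((Lg N y).card : ℝ) + 1) * (1 + log ((Vs N y).card : ℝ)) with hF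
  have hF0 : 0 ≤ F := by positivity
  have hL0 : 0 < L := by linarith
  have hll : 0 ≤ log L := Real.log_nonneg hlX1
  have hCL : 0 < (C : ℝ) * L := by positivity
  have h10 : L ≤ (C : ℝ) * ((1 + log y / L) * F) * (log C + log L) := by
    have h11 := Real.log_le_log hXpos hmain
    rw [Real.log_rpow hCL, Real.log_mul (by positivity) (by positivity)] at h11
    rw [hF]
    refine h11.trans (le_of_eq ?_)
    ring
  have h12 : (C : ℝ) * ((1 + log y / L) * F) * (log C + log L) ≤
      (C : ℝ) * ((1 + log y / L) * F) * (2 * log L) := by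
    apply mul_le_mul_of_nonneg_left (by linarith) (by positivity)
  have h13 : L * L ≤ ((C : ℝ) * ((1 + log y / L) * F) * (2 * log L)) * L :=
    mul_le_mul_of_nonneg_right (h10.trans h12) hL0.le
  have h14 : ((C : ℝ) * ((1 + log y / L) * F) * (2 * log L)) * L =
      ((2 * C : ℕ) : ℝ) * (F * (L + log y)) * log L := by
    push_cast
    field_simp
  rw [h14] at h13
  calc L ^ 2 = L * L := sq L
    _ ≤ _ := h13

end Pool.Agent.Lib.MP_f02ea4_nt.AE
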