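import Mathlib
import Pool.Agent.Lib.MP_f02ea4_nt.AE.Final

/-! Many large primes, version 2: all parts with one constant. -/

set_option autoImplicit false

namespace Pool.Agent.Lib.MP_f02ea4_nt.AE

open Finset Real
open Pool.Agent.Lib.MP_f02ea4_nt.Sm
open Pool.Agent.Lib.MP_f02ea4_nt.Ml (Lg s_prime basics loglog_ge i_loglog_pos final2)

lemma mono_nat (a b : ℕ) (hab : a ≤ b) (hb : 12 ≤ b) (u : ℝ) (hu : 1 / 12 ≤ u) (j : ℕ) :
    ((a : ℝ) * u) ^ (a * j) ≤ ((b : ℝ) * u) ^ (b * j) := by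
  have hbR : (12 : ℝ) ≤ b := by exact_mod_cast hb
  have habR : (a : ℝ) ≤ b := by exact_mod_cast hab
  have h1 : (1 : ℝ) ≤ b * u := by nlinarith
  exact (pow_le_pow_left₀ (mul_nonneg (Nat.cast_nonneg _) (by linarith))
    (mul_le_mul_of_nonneg_right habR (by linarith)) _).trans
    (pow_le_pow_right₀ h1 (Nat.mul_le_mul_right _ hab))

lemma mono_real (a b : ℕ) (hab : a ≤ b) (hb : 12 ≤ b) (u : ℝ) (hu : 1 / 12 ≤ u) (s t : ℝ)
    (hs : 0 ≤ s) (hst : s ≤ t) :
    ((a : ℝ) * u) ^ ((a : ℝ) * s) ≤ ((b : ℝ) * u) ^ ((b : ℝ) * t) := by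
  have hbR : (12 : ℝ) ≤ b := by exact_mod_cast hb
  have habR : (a : ℝ) ≤ b := by exact_mod_cast hab
  have h1 : (1 : ℝ) ≤ b * u := by nlinarith
  have ha0 : (0 : ℝ) ≤ a := Nat.cast_nonneg _
  refine (Real.rpow_le_rpow (by positivity) (mul_le_mul_of_nonneg_right habR (by linarith))
    (by positivity)).trans (Real.rpow_le_rpow_of_exponent_le h1 ?_)
  exact mul_le_mul habR hst hs (by linarith)

/-- all parts with one constant -/
theorem final4 (ε : ℝ) (hε : 0 < ε) : ∃ C : ℕ, 1 ≤ C ∧ ∀ N : ℕ, Odd N → Nat.Perfect N →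
    (∀ y k j : ℕ, 2 ≤ y → k = (N.primeFactors.filter (· ≤ y)).card + 1 →
      j = (N.primeFactors.filter (y < ·)).card →
      log N ≤ C * (y : ℝ) ^ ε * (C * log (log N)) ^ (C * j) *
        (if j = 0 then (k : ℝ) * (y : ℝ) ^ (1 / 2 : ℝ)
          else if j = 1 then min ((k : ℝ) * y) ((y : ℝ) ^ (3 / 2 : ℝ)) else (k : ℝ) * y) ∧
      (C ≤ N → log (log N) ^ 2 ≤
        C * (((j : ℝ) + 1) * (1 + log k) * (log (log N) + log y)) * log (log (log N)))) ∧
    (C ≤ N → log (log N) ≤
      C * (N.primeFactors.filter (fun p : ℕ => log (N : ℝ) ^ (1 / 2 - ε) < p)).card *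
        log (log (log N))) ∧
    (C ≤ N → log (log N) ^ 2 ≤ C * log ((∏ p ∈ N.primeFactors, p : ℕ) : ℝ) *
        log (log (log N))) := by
  obtain ⟨C1, h1⟩ := average ε hε
  obtain ⟨C1', hC1'⟩ := exists_nat_ge C1
  obtain ⟨C2, hC2, h2⟩ := k_form ε hε
  obtain ⟨C3, hC3, h3⟩ := final2 ε hε
  obtain ⟨C4, N0, hC4, h4⟩ := log_form
  obtain ⟨C, hC⟩ : ∃ C : ℕ, C = C1' + C2 + C3 + C4 + N0 + 12 := ⟨_, rfl⟩
  have hC12 : 12 ≤ C := by omega
  have hCR : (12 : ℝ) ≤ C := by exact_mod_cast hC12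
  have hC1C : C1 ≤ C := hC1'.trans (by exact_mod_cast (by omega : C1' ≤ C))
  have hC2C : (C2 : ℝ) ≤ C := by exact_mod_cast (by omega : C2 ≤ C)
  have hC3C : (C3 : ℝ) ≤ C := by exact_mod_cast (by omega : C3 ≤ C)
  have hC4C : (C4 : ℝ) ≤ C := by exact_mod_cast (by omega : C4 ≤ C)
  have hC30 : (0 : ℝ) < C3 := by exact_mod_cast hC3
  refine ⟨C, by omega, ?_⟩
  intro N hodd hN
  have hll := i_loglog_pos N hodd hN
  obtain ⟨g1, g2, g3⟩ := h3 N hodd hN
  have hb3 : (1 : ℝ) ≤ (C : ℝ) * log (log (N : ℝ)) := by nlinarith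
  refine ⟨?_, ?_, ?_⟩
  · intro y k j hy hk hj
    have hy0 : (0 : ℝ) < (y : ℝ) := by exact_mod_cast (by omega : 0 < y)
    have hy1 : (1 : ℝ) ≤ (y : ℝ) := by exact_mod_cast (by omega : 1 ≤ y)
    have hkR : (k : ℝ) = ((N.primeFactors.filter (· ≤ y)).card : ℝ) + 1 := by
      rw [hk]; push_cast; rfl
    have hk1 : (1 : ℝ) ≤ k := by
      rw [hkR]
      have : (0 : ℝ) ≤ ((N.primeFactors.filter (· ≤ y)).card : ℝ) := Nat.cast_nonneg _
      linarith
    have hpowC : 1 ≤ ((C : ℝ) * log (log (N : ℝ))) ^ (C * j) := one_le_pow₀ hb3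
    -- the bound `k y`
    have hky : log (N : ℝ) ≤ C * (y : ℝ) ^ ε * (C * log (log N)) ^ (C * j) * ((k : ℝ) * y) := by
      have h6 := h2 N y hodd hN hy
      rw [← hj, ← hkR] at h6
      refine h6.trans ?_
      have h7 := mono_nat C2 C (by omega) hC12 _ hll j
      have h8 : (y : ℝ) ^ (1 + ε) = y * (y : ℝ) ^ ε := by
        rw [Real.rpow_add hy0, Real.rpow_one]
      rw [h8]
      have h9 : 0 ≤ (k : ℝ) * (y * (y : ℝ) ^ ε) := by positivity
      have h10 : (C2 : ℝ) * k * (y * (y : ℝ) ^ ε) * ((C2 : ℝ) * log (log N)) ^ (C2 * j) ≤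
          (C : ℝ) * k * (y * (y : ℝ) ^ ε) * ((C : ℝ) * log (log N)) ^ (C * j) := by
        apply mul_le_mul _ h7
          (pow_nonneg (mul_nonneg (Nat.cast_nonneg _) (by linarith)) _) (by positivity)
        have := mul_le_mul_of_nonneg_right hC2C h9
        linarith
      refine h10.trans (le_of_eq ?_)
      ring
    refine ⟨?_, ?_⟩
    · by_cases hj0 : j = 0
      · rw [if_pos hj0]
        have hall : ∀ p ∈ N.primeFactors, p ≤ y := by
          intro p hp
          by_contra hc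
          have h6 : p ∈ N.primeFactors.filter (y < ·) := Finset.mem_filter.2 ⟨hp, not_le.1 hc⟩
          have h7 : 0 < (N.primeFactors.filter (y < ·)).card := Finset.card_pos.2 ⟨p, h6⟩
          omega
        have h6 := h1 N y hodd hN hall
        have h7 : N.primeFactors.filter (· ≤ y) = N.primeFactors :=
          Finset.filter_true_of_mem hall
        rw [h7] at hkR
        have h8 : (N.primeFactors.card : ℝ) ≤ k := by rw [hkR]; linarith
        have h9 : (y : ℝ) ^ (1 / 2 + ε) = (y : ℝ) ^ ε * (y : ℝ) ^ (1 / 2 : ℝ) := by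
          rw [← Real.rpow_add hy0, add_comm]
        rw [h9] at h6
        have h10 : (0 : ℝ) ≤ N.primeFactors.card * ((y : ℝ) ^ ε * (y : ℝ) ^ (1 / 2 : ℝ)) := by
          positivity
        have h11 : (N.primeFactors.card : ℝ) * ((y : ℝ) ^ ε * (y : ℝ) ^ (1 / 2 : ℝ)) ≤
            k * ((y : ℝ) ^ ε * (y : ℝ) ^ (1 / 2 : ℝ)) :=
          mul_le_mul_of_nonneg_right h8 (by positivity)
        have h12 : log (N : ℝ) ≤ C * (k * ((y : ℝ) ^ ε * (y : ℝ) ^ (1 / 2 : ℝ))) :=
          h6.trans ((mul_le_mul_of_nonneg_right hC1C h10).trans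
            (mul_le_mul_of_nonneg_left h11 (by linarith)))
        have h13 : 0 ≤ (C : ℝ) * (k * ((y : ℝ) ^ ε * (y : ℝ) ^ (1 / 2 : ℝ))) := by positivity
        have h14 := mul_le_mul_of_nonneg_left hpowC h13
        rw [mul_one] at h14
        refine (h12.trans h14).trans (le_of_eq ?_)
        ring
      · rw [if_neg hj0]
        by_cases hj1 : j = 1
        · rw [if_pos hj1]
          rcases min_choice ((k : ℝ) * y) ((y : ℝ) ^ (3 / 2 : ℝ)) with hm | hm
          · rw [hm]
            exact hky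
          · rw [hm]
            have h6 := g1 y hy
            rw [← hj, if_pos (by omega)] at h6
            refine h6.trans ?_
            have h7 := mono_nat C3 C (by omega) hC12 _ hll j
            have h8 : (y : ℝ) ^ (3 / 2 + ε) = (y : ℝ) ^ ε * (y : ℝ) ^ (3 / 2 : ℝ) := by
              rw [← Real.rpow_add hy0, add_comm]
            rw [h8]
            have h9 : 0 ≤ (y : ℝ) ^ ε * (y : ℝ) ^ (3 / 2 : ℝ) := by positivity
            have h10 : (C3 : ℝ) * ((y : ℝ) ^ ε * (y : ℝ) ^ (3 / 2 : ℝ)) *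
                ((C3 : ℝ) * log (log N)) ^ (C3 * j) ≤
                (C : ℝ) * ((y : ℝ) ^ ε * (y : ℝ) ^ (3 / 2 : ℝ)) *
                ((C : ℝ) * log (log N)) ^ (C * j) := by
              apply mul_le_mul _ h7
                (pow_nonneg (mul_nonneg (Nat.cast_nonneg _) (by linarith)) _) (by positivity)
              exact mul_le_mul_of_nonneg_right hC3C h9
            refine h10.trans (le_of_eq ?_)
            ring
        · rw [if_neg hj1]
          exact hky
    · intro hCN
      have h6 := h4 N y (by omega) hodd hN hy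
      have e1 : (Lg N y).card = j := hj.symm
      rw [e1] at h6
      have h7 : log ((Vs N y).card : ℝ) ≤ log (k : ℝ) := by
        have e2 : (k : ℝ) = ((Vs N y).card : ℝ) + 1 := hkR
        rcases Nat.eq_zero_or_pos (Vs N y).card with h | h
        · rw [h, Nat.cast_zero, Real.log_zero]
          exact log_natCast_nonneg _
        · apply Real.log_le_log (by exact_mod_cast h)
          rw [e2]
          linarith
      have hk0 := log_natCast_nonneg (Vs N y).card
      have hly : 0 ≤ log (y : ℝ) := log_natCast_nonneg _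
      have h8 : (0 : ℝ) ≤ ((j : ℝ) + 1) * (1 + log ((Vs N y).card : ℝ)) *
          (log (log (N : ℝ)) + log y) := by
        have : 0 ≤ log (log (N : ℝ)) := by linarith
        positivity
      have h9 : ((j : ℝ) + 1) * (1 + log ((Vs N y).card : ℝ)) * (log (log (N : ℝ)) + log y) ≤
          ((j : ℝ) + 1) * (1 + log (k : ℝ)) * (log (log (N : ℝ)) + log y) := by
        apply mul_le_mul_of_nonneg_right _ (by linarith)
        exact mul_le_mul_of_nonneg_left (by linarith) (by positivity)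
      have h10 : 0 < log (log (N : ℝ)) ^ 2 := by positivity
      have h11 : 0 < (C4 : ℝ) * (((j : ℝ) + 1) * (1 + log ((Vs N y).card : ℝ)) *
          (log (log (N : ℝ)) + log y)) * log (log (log (N : ℝ))) := by linarith
      have h12 : 0 ≤ (C4 : ℝ) * (((j : ℝ) + 1) * (1 + log ((Vs N y).card : ℝ)) *
          (log (log (N : ℝ)) + log y)) := by positivity
      have h13 : 0 ≤ log (log (log (N : ℝ))) := by
        by_contra hc
        rw [not_le] at hc
        nlinarith
      refine h6.trans ?_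
      apply mul_le_mul_of_nonneg_right _ h13
      exact mul_le_mul hC4C h9 h8 (by linarith)
  · intro hCN
    have h6 := g2 (by omega)
    have h7 : 0 < (C3 : ℝ) * (N.primeFactors.filter (fun p : ℕ => log (N : ℝ) ^ (1 / 2 - ε) < p)).card *
        log (log (log (N : ℝ))) := by linarith
    have h8 : 0 ≤ ((N.primeFactors.filter (fun p : ℕ => log (N : ℝ) ^ (1 / 2 - ε) < p)).card : ℝ) *
        log (log (log (N : ℝ))) := by
      rw [mul_assoc] at h7
      exact ((mul_pos_iff_of_pos_left hC30).1 h7).le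
    rw [mul_assoc] at h6 ⊢
    exact h6.trans (mul_le_mul_of_nonneg_right hC3C h8)
  · intro hCN
    have h6 := g3 (by omega)
    have h7 : 0 < log (log (N : ℝ)) ^ 2 := by positivity
    have h8 : 0 < (C3 : ℝ) * log ((∏ p ∈ N.primeFactors, p : ℕ) : ℝ) * log (log (log (N : ℝ))) := by
      linarith
    have h9 : 0 ≤ log ((∏ p ∈ N.primeFactors, p : ℕ) : ℝ) * log (log (log (N : ℝ))) := by
      rw [mul_assoc] at h8
      exact ((mul_pos_iff_of_pos_left hC30).1 h8).le
    rw [mul_assoc] at h6 ⊢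
    exact h6.trans (mul_le_mul_of_nonneg_right hC3C h9)

end Pool.Agent.Lib.MP_f02ea4_nt.AE
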